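import Pool.Agent.H.MP_ecafe5_an.Seq

set_option autoImplicit false
open Polynomial Filter Topology

namespace Pool.Agent.H.MP_ecafe5_an

/-- All products of `m` factors `E + 1` or `E - 1` applied to `ζ` have the sign `ε` at `0`. -/
def V (ε : ℝ) : ℕ → (ℕ → ℝ) → Prop
  | 0, ζ => 0 ≤ ε * ζ 0
  | m + 1, ζ => V ε m (sm ζ) ∧ V ε m (dl ζ)

lemma V_cone (ε : ℝ) {s t : ℝ} (hs : 0 ≤ s) (ht : 0 ≤ t) (m : ℕ) : ∀ ζ η : ℕ → ℝ,
    V ε m ζ → V ε m η → V ε m (s • ζ + t • η) := by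
  induction m with
  | zero =>
    intro ζ η h1 h2
    simp only [V, Pi.add_apply, Pi.smul_apply, smul_eq_mul] at h1 h2 ⊢
    nlinarith [mul_nonneg hs h1, mul_nonneg ht h2]
  | succ m ih =>
    intro ζ η h1 h2
    have e1 : sm (s • ζ + t • η) = s • sm ζ + t • sm η := by funext j; simp [sm]; ring
    have e2 : dl (s • ζ + t • η) = s • dl ζ + t • dl η := by funext j; simp [dl]; ring
    exact ⟨e1 ▸ ih _ _ h1.1 h2.1, e2 ▸ ih _ _ h1.2 h2.2⟩

lemma V_sft (ε : ℝ) (b : ℕ) : ∀ (m : ℕ) (ζ : ℕ → ℝ), V ε (m + b) ζ → V ε m (sft b ζ) := by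
  induction b with
  | zero => intro m ζ h; exact h
  | succ b ih =>
    intro m ζ h
    have h1 := ih (m + 1) ζ (by rwa [add_right_comm])
    have e : sft (b + 1) ζ = (1 / 2 : ℝ) • sm (sft b ζ) + (1 / 2 : ℝ) • dl (sft b ζ) := by
      funext j
      simp only [sft, sm, dl, Pi.add_apply, Pi.smul_apply, smul_eq_mul, add_right_comm j 1 b,
        add_assoc j b 1]
      ring
    rw [e]
    exact V_cone ε (by norm_num) (by norm_num) m _ _ h1.1 h1.2

lemma comm_dl_sm : Function.Commute dl sm := fun ζ => by funext j; simp only [dl, sm]; ring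

lemma comm_dl_sft (b : ℕ) : Function.Commute dl (sft b) := fun ζ => by
  funext j; simp only [dl, sft, add_right_comm j 1 b]

lemma V_of (ε : ℝ) (m : ℕ) : ∀ ζ : ℕ → ℝ,
    (∀ i j, i + j = m → 0 ≤ ε * (sm^[i] (dl^[j] ζ)) 0) → V ε m ζ := by
  induction m with
  | zero => intro ζ h; exact h 0 0 rfl
  | succ m ih =>
    intro ζ h
    refine ⟨ih _ fun i j hij => ?_, ih _ fun i j hij => h i (j + 1) (by omega)⟩
    rw [(comm_dl_sm.iterate_left j).eq]
    exact h (i + 1) j (by omega)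

lemma V_root {ε : ℝ} (hε : ε ≠ 0) (m : ℕ) : ∀ ζ : ℕ → ℝ, V ε m ζ →
    (∀ w : ℝ, 1 / 2 < w → 0 < ε * FP w (1 - w) m ζ) ∨ ∀ w : ℝ, FP w (1 - w) m ζ = 0 := by
  induction m with
  | zero =>
    intro ζ h
    rcases (show 0 ≤ ε * ζ 0 from h).eq_or_lt with h1 | h1
    · right; intro w
      simpa [FP, hε] using h1.symm
    · left; intro w _; simpa [FP] using h1
  | succ m ih =>
    intro ζ h
    have e : ∀ w : ℝ, FP w (1 - w) (m + 1) ζ =
        1 / 2 * FP w (1 - w) m (sm ζ) + (w - 1 / 2) * FP w (1 - w) m (dl ζ) := fun w => by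
      rw [FP_half]; simp
    rcases ih _ h.1 with h1 | h1 <;> rcases ih _ h.2 with h2 | h2
    · left; intro w hw
      have := mul_pos (sub_pos.2 hw) (h2 w hw)
      have := h1 w hw
      rw [e]; nlinarith
    · left; intro w hw
      have := h1 w hw
      rw [e, h2]; nlinarith
    · left; intro w hw
      have := mul_pos (sub_pos.2 hw) (h2 w hw)
      rw [e, h1]; nlinarith
    · right; intro w; rw [e, h1, h2]; ring

/-- The Bernstein form. -/
noncomputable def Bz (d : ℕ) (γ : ℕ → ℝ) : ℝ[X] := FP (lin 0 1) (lin 1 (-1)) d γ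

lemma Bz_eval (d : ℕ) (γ : ℕ → ℝ) (w : ℝ) : (Bz d γ).eval w = FP w (1 - w) d γ := by
  rw [Bz, FP_eval]; congr 1 <;> ring

lemma Bz_iter (γ : ℕ → ℝ) (n : ℕ) : ∀ m, ∃ c : ℝ, c ≠ 0 ∧
    derivative^[n] (Bz (m + n) γ) = c • Bz m (dl^[n] γ) := by
  induction n with
  | zero => intro m; exact ⟨1, one_ne_zero, by simp⟩
  | succ n ih =>
    intro m
    obtain ⟨c, hc, e⟩ := ih (m + 1)
    refine ⟨c * (m + 1), mul_ne_zero hc (by positivity), ?_⟩
    have e2 : dl (dl^[n] γ) = (1 : ℝ) • sh (dl^[n] γ) + (-1 : ℝ) • (dl^[n] γ) := by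
      funext j; simp [dl, sh]; ring
    rw [Function.iterate_succ_apply', Function.iterate_succ_apply', ← add_assoc,
      add_right_comm m n 1, e, derivative_smul, Bz, FP_deriv, smul_smul, e2, Bz]

lemma cnt_Bz {ε : ℝ} (hε : ε ≠ 0) {m n : ℕ} {γ : ℕ → ℝ} (h : V ε m (dl^[n] γ)) :
    cnt (1 / 2) (Bz (m + n) γ) ≤ n := by
  have h1 := cnt_iter (1 / 2) (Bz (m + n) γ) n
  obtain ⟨c, hc, e⟩ := Bz_iter γ n m
  have h2 : cnt (1 / 2) (derivative^[n] (Bz (m + n) γ)) = 0 := by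
    rw [cnt, Multiset.card_eq_zero, Multiset.filter_eq_nil]
    intro r hr hr2
    rw [e, mem_roots'] at hr
    rcases V_root hε m _ h with h3 | h3
    · have h4 := h3 r hr2
      have h5 := hr.2
      rw [IsRoot, eval_smul, Bz_eval, smul_eq_mul, mul_eq_zero] at h5
      rw [h5.resolve_left hc, mul_zero] at h4
      exact lt_irrefl _ h4
    · refine hr.1 (Polynomial.funext fun w => ?_)
      rw [eval_smul, Bz_eval, h3, smul_zero, eval_zero]
  omega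

lemma core {η : ℕ → ℝ} (h : A η) (h0 : ∀ j, 0 ≤ η j) (hp : 0 < η 0) {θ : ℝ} (hθ : 0 < θ)
    (hθ1 : θ ≤ 1) (hg : ∀ j, η j ≤ η 0 * θ ^ j) {N n : ℕ} (hc : cnt (1 / 2) (Bz N η) ≤ n) :
    (θ / (1 + θ)) ^ n ≤ (2 * θ / (1 + θ)) ^ N ∧
      (4 * θ / (1 + θ) ^ 2) ^ n * η N ≤ η 0 * (4 * θ / (1 + θ) ^ 2 * θ) ^ N := by
  have hRZ : RZ (Bz N η) := (chart (by norm_num) _ _).2 (h _)
  have e0 : (Bz N η).eval 0 = η 0 := by rw [Bz_eval, sub_zero, FP_zero_one]
  have hf := hRZ.fact (by rw [e0]; exact hp.ne')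
  set s := (Bz N η).roots with hs
  have ev : ∀ x, FP x (1 - x) N η = η 0 * (s.map fun r => 1 - r⁻¹ * x).prod := fun x => by
    rw [← Bz_eval, hf, e0, eval_mul, eval_C, np, eval_multiset_prod, Multiset.map_map]
    simp
  have hr : ∀ r ∈ s, r < 0 ∨ 1 ≤ r := fun r hr => by
    by_contra hcon
    push Not at hcon
    have h1 := isRoot_of_mem_roots hr
    rw [IsRoot, Bz_eval] at h1
    exact (FP_pos hcon.1 (by linarith) N h0 hp).ne' h1
  have hu1 : ∀ r ∈ s, 1 / 2 < r → 0 ≤ 1 - r⁻¹ := fun r hr1 hr2 =>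
    sub_nonneg.2 (inv_le_one_of_one_le₀ ((hr r hr1).resolve_left (by linarith)))
  have hu2 : ∀ r ∈ s, ¬ 1 / 2 < r → r⁻¹ < 0 := fun r hr1 hr2 =>
    inv_lt_zero.2 ((hr r hr1).resolve_right (by linarith [not_lt.1 hr2]))
  have hu : ∀ r ∈ s, 0 ≤ 1 - r⁻¹ := fun r hr1 => by
    by_cases hr2 : 1 / 2 < r
    · exact hu1 r hr1 hr2
    · linarith [hu2 r hr1 hr2]
  obtain ⟨w, hw0, hw⟩ : ∃ w : ℝ, 0 < w ∧ w * (1 + θ) = 1 :=
    ⟨(1 + θ)⁻¹, by positivity, inv_mul_cancel₀ (by positivity)⟩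
  have d1 : ∀ x : ℝ, x / (1 + θ) = x * w := fun x => by
    rw [div_eq_iff (by positivity)]; linear_combination (-x) * hw
  have d2 : ∀ x : ℝ, x / (1 + θ) ^ 2 = x * w ^ 2 := fun x => by
    rw [pow_two, ← div_div, d1, d1]; ring
  have ub : (s.map fun r => 1 - r⁻¹ * w).prod ≤ (2 * θ * w) ^ N := by
    have h1 := FP_le hw0.le (show 0 ≤ 1 - w by nlinarith) N (η 0) η hg
    rw [ev, show w * θ + (1 - w) = 2 * θ * w by linear_combination (-1 : ℝ) * hw] at h1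
    exact le_of_mul_le_mul_left h1 hp
  have hw1 : θ * w ≤ 1 := by nlinarith
  have hl1 : 4 * θ * w ^ 2 ≤ 1 := by nlinarith [sq_nonneg (w * (1 - θ))]
  have lb1 := prod_lb s (fun r => 1 - r⁻¹ * w) (fun _ => 1) (1 / 2) (c := θ * w) (by positivity)
    (fun _ _ => zero_le_one)
    (fun r hr1 hr2 => by have := mul_nonneg (hu r hr1) hw0.le; nlinarith)
    (fun r hr1 hr2 => by have := mul_neg_of_neg_of_pos (hu2 r hr1 hr2) hw0; linarith)
  have lb2 := prod_lb s (fun r => (1 - r⁻¹ * w) ^ 2) (fun r => 1 - r⁻¹ * 1) (1 / 2)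
    (c := 4 * θ * w ^ 2) (by positivity) (fun r hr1 => by simpa using hu r hr1)
    (fun r hr1 hr2 => by
      have e : 1 - r⁻¹ * w = (θ + (1 - r⁻¹)) * w := by linear_combination (-1 : ℝ) * hw
      rw [e]
      nlinarith [sq_nonneg ((θ - (1 - r⁻¹)) * w)])
    (fun r hr1 hr2 => by
      have e : 1 - r⁻¹ * w = (θ + (1 - r⁻¹)) * w := by linear_combination (-1 : ℝ) * hw
      have h1 := hu2 r hr1 hr2
      have h2 : 0 ≤ (-r⁻¹) * (1 - r⁻¹ - θ ^ 2) := mul_nonneg (by linarith) (by nlinarith)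
      have h3 := mul_nonneg h2 (sq_nonneg w)
      have h4 : (w * (1 + θ)) ^ 2 = 1 := by rw [hw, one_pow]
      rw [e]
      have : ((θ + (1 - r⁻¹)) * w) ^ 2 - (1 - r⁻¹) * (w * (1 + θ)) ^ 2 =
          -r⁻¹ * (1 - r⁻¹ - θ ^ 2) * w ^ 2 := by ring
      rw [h4] at this
      linarith)
  rw [d1, d1, d2]
  have hc' : (s.filter (1 / 2 < ·)).card ≤ n := hc
  have p1 := pow_le_pow_of_le_one (by positivity) hw1 hc'
  have p2 := pow_le_pow_of_le_one (by positivity) hl1 hc'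
  simp only [Multiset.map_const', Multiset.prod_replicate, one_pow, mul_one] at lb1
  refine ⟨p1.trans (lb1.trans ub), ?_⟩
  have e1 := ev 1
  rw [sub_self, FP_one_zero] at e1
  have hP : 0 ≤ (s.map fun r => 1 - r⁻¹ * 1).prod := by
    have := h0 N
    rw [e1] at this
    exact (mul_nonneg_iff_of_pos_left hp).1 this
  rw [Multiset.prod_map_pow] at lb2
  have p3 := pow_le_pow_left₀ ((pow_nonneg (by positivity) _).trans lb1) ub 2
  have p4 : ((2 * θ * w) ^ N) ^ 2 = (4 * θ * w ^ 2 * θ) ^ N := by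
    rw [← pow_mul, mul_comm N 2, pow_mul]; congr 1; ring
  have p5 := ((mul_le_mul_of_nonneg_right p2 hP).trans lb2).trans (p3.trans p4.le)
  have p6 := mul_le_mul_of_nonneg_left p5 hp.le
  rw [e1]
  linarith

lemma no_growth {a b x y : ℝ} (ha : 0 < a) (hy : 0 ≤ y) (hxy : y < x)
    (h : ∀ m : ℕ, a * x ^ m ≤ b * y ^ m) : False := by
  have hx : 0 < x := hy.trans_lt hxy
  have h1 := (tendsto_pow_atTop_nhds_zero_of_lt_one (div_nonneg hy hx.le)
    ((div_lt_one hx).2 hxy)).const_mul b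
  rw [mul_zero] at h1
  refine absurd (ge_of_tendsto' h1 fun m => ?_) (not_le.2 ha)
  rw [div_pow, ← mul_div_assoc, le_div_iff₀ (by positivity)]
  exact h m

/-- Constant sign case: the sign condition forces monotonicity. -/
lemma five_pos {δ : ℕ → ℝ} (h : A δ) (h0 : ∀ j, 0 ≤ δ j)
    (hV : ∀ n, ∃ ε : ℝ, ε ^ 2 = 1 ∧ V ε n (dl^[n] δ)) (b0 : ℕ) : δ b0 ≤ δ (b0 + 1) := by
  by_contra hb0
  push Not at hb0
  have key : ∀ (b : ℕ) (θ : ℝ), 0 < δ b → 0 < θ → θ ≤ 1 → δ (b + 1) ≤ θ * δ b → ∀ m : ℕ,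
      (θ / (1 + θ)) ^ (m + b) ≤ (2 * θ / (1 + θ)) ^ (m + (m + b)) ∧
      (4 * θ / (1 + θ) ^ 2) ^ (m + b) * δ (m + (m + b) + b) ≤
        δ b * (4 * θ / (1 + θ) ^ 2 * θ) ^ (m + (m + b)) := by
    intro b θ hb hθ hθ1 h1 m
    obtain ⟨ε, hε, h2⟩ := hV (m + b)
    have h3 := V_sft ε b m _ h2
    rw [← ((comm_dl_sft b).iterate_left (m + b)).eq] at h3
    have h4 := core (h.sft b) (fun j => h0 _) (by simpa [sft] using hb) hθ hθ1
      (fun j => by simpa [sft, add_comm j] using h.geo h0 hθ.le b hb h1 j)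
      (cnt_Bz (fun h5 => by simp [h5] at hε) h3)
    simpa only [sft, zero_add] using h4
  by_cases hB : ∃ b, 0 < δ b ∧ δ (b + 1) ≤ 1 / 4 * δ b
  · obtain ⟨b, hb, h1⟩ := hB
    refine no_growth (a := (1 / 5) ^ b) (b := (2 / 5) ^ b) (x := 1 / 5) (y := 2 / 5 * (2 / 5))
      (by positivity) (by norm_num) (by norm_num) fun m => ?_
    have := (key b (1 / 4) hb (by norm_num) (by norm_num) h1 m).1
    norm_num [pow_add] at this
    rw [mul_pow]
    norm_num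
    linarith
  push Not at hB
  have hpos : ∀ j, 0 < δ (b0 + j) := fun j => by
    induction j with
    | zero => exact (h0 _).trans_lt hb0
    | succ j ih => have := hB _ ih; rw [← add_assoc]; linarith
  set ρ : ℕ → ℝ := fun j => δ (b0 + j + 1) / δ (b0 + j) with hρ
  have hρ1 : ∀ j, 1 / 4 ≤ ρ j := fun j => by
    rw [hρ, le_div_iff₀ (hpos j)]; exact (hB _ (hpos j)).le
  have hbd : BddBelow (Set.range ρ) := ⟨1 / 4, by rintro _ ⟨j, rfl⟩; exact hρ1 j⟩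
  obtain ⟨σ, hσ0, hσ1, hσ2⟩ : ∃ σ : ℝ, 1 / 4 ≤ σ ∧ (∀ j, σ ≤ ρ j) ∧ ∀ x, σ < x → ∃ j, ρ j < x :=
    ⟨⨅ j, ρ j, le_ciInf hρ1, ciInf_le hbd, fun x hx => exists_lt_of_ciInf_lt hx⟩
  have hσ3 : σ < 1 := (hσ1 0).trans_lt ((div_lt_one (hpos 0)).2 hb0)
  have hev : ∀ᶠ θ in 𝓝 σ, θ < 1 ∧ 4 * θ ^ 3 < σ ^ 2 * (1 + θ) ^ 2 := by
    refine (eventually_lt_nhds hσ3).and (ContinuousAt.eventually_lt (by fun_prop) (by fun_prop) ?_)
    have := mul_pos (pow_pos (show 0 < σ by linarith) 2) (pow_pos (sub_pos.2 hσ3) 2)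
    nlinarith
  obtain ⟨e, he, hev⟩ := Metric.eventually_nhds_iff.1 hev
  obtain ⟨j, hj⟩ := hσ2 (σ + e) (by linarith)
  obtain ⟨hθ1, hθ2⟩ := hev (y := ρ j) (by
    rw [Real.dist_eq, abs_of_nonneg (sub_nonneg.2 (hσ1 j))]; linarith)
  have hθ0 : 0 < ρ j := by linarith [hρ1 j]
  have hlow : ∀ N, δ (b0 + j) * σ ^ N ≤ δ (N + (b0 + j)) := fun N => by
    induction N with
    | zero => simp
    | succ N ih =>
      have h1 := hσ1 (j + N)
      rw [hρ, le_div_iff₀ (hpos _)] at h1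
      have h2 := mul_le_mul_of_nonneg_left ih (show 0 ≤ σ by linarith)
      rw [show N + 1 + (b0 + j) = b0 + (j + N) + 1 by omega, pow_succ]
      rw [show N + (b0 + j) = b0 + (j + N) by omega] at h2
      linarith
  have hk := key (b0 + j) (ρ j) (hpos j) hθ0 hθ1.le
    (by rw [hρ, div_mul_cancel₀ _ (hpos j).ne'])
  set θ := ρ j
  set b := b0 + j
  set l := 4 * θ / (1 + θ) ^ 2 with hl
  have hl0 : 0 < l := by positivity
  refine no_growth (a := σ ^ b) (b := θ ^ b) (x := σ * σ) (y := l * θ * θ)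
    (by have : 0 < σ := by linarith
        positivity) (by positivity) ?_ fun m => ?_
  · rw [hl, div_mul_eq_mul_div, div_mul_eq_mul_div, div_lt_iff₀ (by positivity)]
    linarith
  · have h1 := (mul_le_mul_of_nonneg_left (hlow (m + (m + b))) (pow_pos hl0 (m + b)).le).trans
      (hk m).2
    refine le_of_mul_le_mul_left ?_ (mul_pos (pow_pos hl0 (m + b)) (hpos j))
    simp only [pow_add, mul_pow] at h1 ⊢
    linarith

lemma dl_alt (δ : ℕ → ℝ) (e : ℝ) (a : ℕ) :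
    dl^[a] (fun j => e * (-1) ^ j * δ j) = fun j => (e * (-1) ^ a) * (-1) ^ j * (sm^[a] δ) j := by
  induction a with
  | zero => simp
  | succ a ih =>
    rw [Function.iterate_succ_apply', ih, Function.iterate_succ_apply']
    funext j
    simp only [dl, sm]
    ring

/-- Alternating sign case. -/
lemma five_alt {δ : ℕ → ℝ} (h : A δ) (h0 : ∀ j, 0 ≤ δ j) {e : ℝ} (he : e ^ 2 = 1)
    (hV : ∀ n, ∃ ε : ℝ, ε ^ 2 = 1 ∧ V ε n (dl^[n] fun j => e * (-1) ^ j * δ j)) (b : ℕ) :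
    δ b ≤ δ (b + 1) := by
  by_contra hb
  push Not at hb
  have key : ∀ a, (∀ j, 0 ≤ (sm^[a] δ) j) ∧ (∀ j, (sm^[a] δ) (b + j + 1) ≤ (sm^[a] δ) (b + j)) ∧
      (sm^[a] δ) (b + 1) < (sm^[a] δ) b := by
    intro a
    induction a with
    | zero =>
      refine ⟨h0, fun j => ?_, hb⟩
      have := h.decay h0 (θ := 1) b ((h0 _).trans_lt hb) (by linarith) j
      simpa using this
    | succ a ih =>
      rw [Function.iterate_succ_apply']
      refine ⟨fun j => add_nonneg (ih.1 _) (ih.1 _), fun j => ?_, ?_⟩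
      · exact add_le_add (ih.2.1 (j + 1)) (ih.2.1 j)
      · exact add_lt_add_of_le_of_lt (ih.2.1 1) ih.2.2
  obtain ⟨ε, hε, h1⟩ := hV (1 + b)
  have h2 := V_sft ε b 1 _ h1
  rw [dl_alt] at h2
  obtain ⟨h3, h4⟩ := h2
  simp only [V, sm, dl, sft, zero_add, add_comm 1 b] at h3 h4
  have h5 := mul_nonneg h3 h4
  obtain ⟨k1, -, k3⟩ := key (b + 1)
  set x := (sm^[b + 1] δ) b
  set y := (sm^[b + 1] δ) (b + 1)
  have h6 : ((-1 : ℝ) ^ b) ^ 2 = 1 := by rw [← pow_mul, mul_comm, pow_mul]; simp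
  have h7 : ε * (e * (-1) ^ (b + 1) * (-1) ^ (b + 1) * y + e * (-1) ^ (b + 1) * (-1) ^ b * x) *
      (ε * (e * (-1) ^ (b + 1) * (-1) ^ (b + 1) * y - e * (-1) ^ (b + 1) * (-1) ^ b * x)) =
      ε ^ 2 * e ^ 2 * (((-1) ^ b) ^ 2) ^ 2 * (y ^ 2 - x ^ 2) := by ring
  rw [h7, hε, he, h6] at h5
  have h8 : 0 ≤ y := k1 _
  nlinarith

end Pool.Agent.H.MP_ecafe5_an
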