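import Pool.Agent.H.MP_ecafe5_an.Five

set_option autoImplicit false
open Polynomial Filter Topology

namespace Pool.Agent.H.MP_ecafe5_an

section gen
variable (K : Type*) [Field K]

/-- Monic Hermite polynomials. -/
noncomputable def HH : ℕ → K[X]
  | 0 => 1
  | n + 1 => X * HH n - C (1 / 2) * derivative (HH n)

lemma HH_deg (n : ℕ) : (HH K n).degree = n := by
  induction n with
  | zero => simp [HH]
  | succ n ih =>
    have h0 : HH K n ≠ 0 := fun h => by simp [h] at ih
    have h1 : (X * HH K n).degree = ((n + 1 : ℕ) : WithBot ℕ) := by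
      rw [degree_mul, degree_X, ih, add_comm]; rfl
    rw [HH, degree_sub_eq_left_of_degree_lt, h1]
    rw [h1]
    refine (degree_mul_le _ _).trans_lt ?_
    refine lt_of_le_of_lt (add_le_add degree_C_le (degree_derivative_lt h0).le) ?_
    rw [zero_add, ih]
    exact_mod_cast Nat.lt_succ_self n

/-- The Hermite basis. -/
noncomputable def HB : Module.Basis ℕ K K[X] :=
  Polynomial.Sequence.basis ⟨HH K, HH_deg K⟩ fun i =>
    (leadingCoeff_ne_zero.2 fun h => by
      have h1 := HH_deg K i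
      have h2 : HH K i = 0 := h
      simp [h2] at h1).isUnit

lemma HB_apply (n : ℕ) : HB K n = HH K n := Polynomial.Sequence.basis_eq_self _ _ n

/-- The diagonal operator with eigenvalues `γ`. -/
noncomputable def DT (γ : ℕ → K) : Module.End K K[X] := (HB K).constr K fun n => γ n • HH K n

variable {K}

lemma DT_HH (γ : ℕ → K) (n : ℕ) : DT K γ (HH K n) = γ n • HH K n := by
  conv_lhs => rw [← HB_apply]
  exact (HB K).constr_basis K _ n

lemma HH_ind {P : K[X] → Prop} (h0 : P 0) (ha : ∀ p q, P p → P q → P (p + q))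
    (hs : ∀ (c : K) p, P p → P (c • p)) (hH : ∀ n, P (HH K n)) (p : K[X]) : P p := by
  have hp : p ∈ Submodule.span K (Set.range (HB K)) := by rw [(HB K).span_eq]; trivial
  induction hp using Submodule.span_induction with
  | mem x hx => obtain ⟨n, rfl⟩ := hx; rw [HB_apply]; exact hH n
  | zero => exact h0
  | add x y _ _ hx hy => exact ha x y hx hy
  | smul c x _ hx => exact hs c x hx

lemma HH_ext {S T : Module.End K K[X]} (h : ∀ n, S (HH K n) = T (HH K n)) : S = T :=
  (HB K).ext fun n => by rw [HB_apply]; exact h n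

lemma HH_deriv (n : ℕ) : derivative (HH K n) = (n : K) • HH K (n - 1) := by
  have key : ∀ n : ℕ, derivative (HH K (n + 1)) = ((n : K) + 1) • HH K n := by
    intro n
    induction n with
    | zero => simp [HH]
    | succ n ih =>
      rw [HH, derivative_sub, derivative_mul, derivative_C_mul, ih, derivative_smul]
      simp only [HH, derivative_X, smul_eq_C_mul, Nat.cast_add, Nat.cast_one, map_add, map_one]
      ring
  rcases n with _ | n
  · simp [HH]
  · rw [key]; simp

/-- Multiplication by `X`. -/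
noncomputable def xo : Module.End K K[X] := LinearMap.mulLeft K X

/-- Differentiation. -/
noncomputable def Do : Module.End K K[X] := derivative

lemma Do_xo : (Do : Module.End K K[X]) * xo = xo * Do + 1 := by
  refine LinearMap.ext fun p => ?_
  simp [Do, xo, add_comm]

lemma A_HH (n : ℕ) : (xo - (1 / 2 : K) • Do : Module.End K K[X]) (HH K n) = HH K (n + 1) := by
  simp [xo, Do, HH, smul_eq_C_mul]

lemma DT_A (γ : ℕ → K) : DT K γ * (xo - (1 / 2 : K) • Do) =
    (xo - (1 / 2 : K) • Do) * DT K fun n => γ (n + 1) :=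
  HH_ext fun n => by
    rw [Module.End.mul_apply, Module.End.mul_apply, A_HH, DT_HH, DT_HH, map_smul, A_HH]

lemma D_DT (γ : ℕ → K) : Do * DT K γ = (DT K fun n => γ (n + 1)) * Do :=
  HH_ext fun n => by
    rw [Module.End.mul_apply, Module.End.mul_apply, DT_HH, map_smul, Do, HH_deriv, map_smul,
      DT_HH, smul_smul, smul_smul]
    rcases n with _ | n <;> simp [mul_comm]

lemma DT_sub (γ η : ℕ → K) : (DT K fun n => γ n - η n) = DT K γ - DT K η :=
  HH_ext fun n => by rw [LinearMap.sub_apply, DT_HH, DT_HH, DT_HH, sub_smul]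

lemma DT_smul (c : K) (γ : ℕ → K) : (DT K fun n => c * γ n) = c • DT K γ :=
  HH_ext fun n => by rw [LinearMap.smul_apply, DT_HH, DT_HH, smul_smul]

lemma DT_step (ζ : K) (γ : ℕ → K) : (DT K fun n => ζ * γ n + n * γ (n - 1)) =
    ζ • DT K γ + (xo - (1 / 2 : K) • Do) * DT K γ * Do :=
  HH_ext fun n => by
    rw [LinearMap.add_apply, LinearMap.smul_apply, Module.End.mul_apply, Module.End.mul_apply,
      DT_HH, DT_HH]
    conv_rhs => rw [Do, HH_deriv, map_smul, DT_HH, map_smul, map_smul, ← Do, A_HH]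
    rcases n with _ | n <;> simp [add_smul, smul_smul]

lemma DT_inj {γ : ℕ → K} (h : ∀ n, γ n ≠ 0) {p : K[X]} (hp : DT K γ p = 0) : p = 0 := by
  have e : (DT K fun n => (γ n)⁻¹) * DT K γ = 1 := HH_ext fun n => by
    rw [Module.End.mul_apply, DT_HH, map_smul, DT_HH, smul_smul, mul_inv_cancel₀ (h n)]
    simp
  have := congrArg (fun S : Module.End K K[X] => S p) e
  simp only [Module.End.mul_apply, hp, map_zero, Module.End.one_apply] at this
  exact this.symm

lemma DT_deg (p : K[X]) : ∃ B, ∀ γ, (DT K γ p).natDegree ≤ B := by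
  induction p using HH_ind with
  | h0 => exact ⟨0, by simp⟩
  | ha p q hp hq =>
    obtain ⟨B, hB⟩ := hp
    obtain ⟨B', hB'⟩ := hq
    refine ⟨max B B', fun γ => ?_⟩
    rw [map_add]
    exact (natDegree_add_le _ _).trans (max_le_max (hB γ) (hB' γ))
  | hs c p hp =>
    obtain ⟨B, hB⟩ := hp
    exact ⟨B, fun γ => by rw [map_smul]; exact (natDegree_smul_le _ _).trans (hB γ)⟩
  | hH n => exact ⟨_, fun γ => by rw [DT_HH]; exact natDegree_smul_le _ _⟩

lemma HH_neg (n : ℕ) : (HH K n).comp (-X) = ((-1 : K) ^ n) • HH K n := by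
  induction n with
  | zero => simp [HH]
  | succ n ih =>
    have h := congrArg derivative ih
    rw [derivative_comp, derivative_smul] at h
    simp only [HH, sub_comp, mul_comp, X_comp, C_comp, ih, smul_eq_C_mul, pow_succ, map_mul,
      map_neg, map_one, derivative_X] at h ⊢
    linear_combination (C (1 / 2 : K)) * h

lemma DT_alt (e : K) (δ : ℕ → K) (p : K[X]) :
    DT K (fun j => e * (-1) ^ j * δ j) p = e • DT K δ (p.comp (-X)) := by
  induction p using HH_ind with
  | h0 => simp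
  | ha p q hp hq => simp [hp, hq]
  | hs c p hp => rw [map_smul, hp, smul_comp, map_smul, smul_comm]
  | hH n => rw [HH_neg, map_smul, DT_HH, DT_HH, smul_smul, smul_smul]

end gen

lemma HH_map (n : ℕ) : (HH ℝ n).map (algebraMap ℝ ℂ) = HH ℂ n := by
  induction n with
  | zero => simp [HH]
  | succ n ih => simp [HH, Polynomial.map_sub, Polynomial.map_mul, ← ih]

lemma DT_map (γ : ℕ → ℝ) (p : ℝ[X]) : (DT ℝ γ p).map (algebraMap ℝ ℂ) =
    DT ℂ (fun n => (γ n : ℂ)) (p.map (algebraMap ℝ ℂ)) := by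
  induction p using HH_ind with
  | h0 => simp
  | ha p q hp hq => simp [hp, hq]
  | hs c p hp => rw [map_smul, Polynomial.map_smul, Polynomial.map_smul, map_smul, hp]
  | hH n => rw [DT_HH, Polynomial.map_smul, HH_map, DT_HH]; rfl

lemma hermite_eq (n : ℕ) : ((hermite n).map (Int.castRingHom ℝ)).comp (C (Real.sqrt 2) * X) =
    (Real.sqrt 2 ^ n) • HH ℝ n := by
  induction n with
  | zero => simp [HH]
  | succ n ih =>
    have h := congrArg derivative ih
    rw [derivative_comp, derivative_smul, derivative_map] at h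
    have h2 : (C (Real.sqrt 2) : ℝ[X]) * C (Real.sqrt 2) * C (1 / 2) = 1 := by
      rw [← C_mul, ← C_mul, Real.mul_self_sqrt (by norm_num)]; norm_num
    simp only [hermite_succ, Polynomial.map_sub, Polynomial.map_mul, map_X, HH, sub_comp, mul_comp,
      X_comp, ih, smul_eq_C_mul, pow_succ, map_mul, derivative_C_mul, derivative_X, mul_one] at h ⊢
    linear_combination (-C (Real.sqrt 2) * C (1 / 2)) * h +
      ((derivative (hermite n)).map (Int.castRingHom ℝ)).comp (C (Real.sqrt 2) * X) * h2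

/-- Commutator with multiplication by `X`. -/
noncomputable def ad : Module.End ℝ (Module.End ℝ ℝ[X]) :=
  LinearMap.mulRight ℝ xo - LinearMap.mulLeft ℝ xo

lemma ad_apply (U : Module.End ℝ ℝ[X]) : ad U = U * xo - xo * U := rfl

lemma ad_x (U : Module.End ℝ ℝ[X]) (k : ℕ) : (ad ^ k) (xo * U) = xo * (ad ^ k) U := by
  induction k with
  | zero => rfl
  | succ k ih =>
    rw [pow_succ', Module.End.mul_apply, Module.End.mul_apply, ih, ad_apply, ad_apply, mul_sub,
      mul_assoc]

lemma ad_D (U : Module.End ℝ ℝ[X]) (k : ℕ) :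
    (ad ^ (k + 1)) (U * Do) = (ad ^ (k + 1)) U * Do + ((k : ℝ) + 1) • (ad ^ k) U := by
  have h1 : ∀ W : Module.End ℝ ℝ[X], ad (W * Do) = ad W * Do + W := fun W => by
    rw [ad_apply, ad_apply, mul_assoc, Do_xo, mul_add, mul_one, sub_mul, mul_assoc, mul_assoc]
    abel
  induction k with
  | zero => simpa using h1 U
  | succ k ih =>
    rw [pow_succ' ad (k + 1), Module.End.mul_apply, Module.End.mul_apply, ih, map_add, h1,
      map_smul, ← Module.End.mul_apply ad (ad ^ k), ← pow_succ']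
    push_cast
    module

lemma ad_DT (γ : ℕ → ℝ) :
    ad (DT ℝ γ) = xo * DT ℝ (dl γ) - (1 / 2 : ℝ) • (DT ℝ (sm (dl γ)) * Do) := by
  have e1 : DT ℝ (dl γ) = _ := DT_sub (fun n => γ (n + 1)) γ
  have e2 : DT ℝ (sm (dl γ)) = DT ℝ (fun n => γ (n + 1 + 1)) - DT ℝ γ := by
    rw [← DT_sub]; congr 1; funext n; simp only [sm, dl]; ring
  have h1 := DT_A γ
  have h2 := D_DT fun n => γ (n + 1)
  rw [mul_sub, sub_mul, mul_smul_comm, smul_mul_assoc, h2, sub_eq_iff_eq_add] at h1
  rw [ad_apply, e1, e2, h1, mul_sub, sub_mul]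
  module

/-- The coefficient polynomials `k! Q_k`. -/
noncomputable def qq : ℕ → (ℕ → ℝ) → ℝ[X]
  | 0, γ => C (γ 0)
  | 1, γ => X * C (dl γ 0)
  | k + 2, γ => X * qq (k + 1) (dl γ) - C (((k : ℝ) + 1) / 2) * qq k (sm (dl γ))

lemma DT_one (γ : ℕ → ℝ) : DT ℝ γ 1 = C (γ 0) := by
  have := DT_HH γ 0
  simpa [HH, smul_eq_C_mul] using this

theorem ad_qq : ∀ (k : ℕ) (γ : ℕ → ℝ), (ad ^ k) (DT ℝ γ) 1 = qq k γ
  | 0, γ => DT_one γ
  | 1, γ => by simp [ad_DT, qq, xo, Do, DT_one]
  | k + 2, γ => by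
    rw [pow_succ, Module.End.mul_apply, ad_DT, map_sub, map_smul, ad_x, ad_D, qq,
      ← ad_qq (k + 1), ← ad_qq k]
    simp only [xo, Do, LinearMap.sub_apply, LinearMap.smul_apply, LinearMap.add_apply,
      Module.End.mul_apply, LinearMap.mulLeft_apply, derivative_one, map_zero, zero_add,
      smul_eq_C_mul]
    rw [← mul_assoc, ← C_mul]
    congr 3
    ring

/-- `T = Σ Q_k D^k`. -/
def Rep (T : Module.End ℝ ℝ[X]) (Q : ℕ → ℝ[X]) : Prop :=
  ∀ (p : ℝ[X]) (N : ℕ), p.natDegree < N → T p = ∑ k ∈ Finset.range N, Q k * derivative^[k] p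

lemma Rep.ad {T : Module.End ℝ ℝ[X]} {Q : ℕ → ℝ[X]} (h : Rep T Q) :
    Rep (ad T) fun k => ((k : ℝ) + 1) • Q (k + 1) := by
  intro p N hN
  have h1 := h (p * X) (N + 1) (natDegree_mul_le.trans_lt (by have := natDegree_X_le (R := ℝ); omega))
  have h2 := h p (N + 1) (by omega)
  have e : MP_ecafe5_an.ad T p = T (p * X) - T p * X := by
    simp [ad_apply, xo, mul_comm X]
  rw [e, h1, h2, Finset.sum_mul, ← Finset.sum_sub_distrib, Finset.sum_range_succ']
  simp only [iterate_derivative_mul_X, zero_smul, add_zero, mul_assoc, sub_self]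
  refine Finset.sum_congr rfl fun k _ => ?_
  simp only [smul_eq_C_mul, nsmul_eq_mul, map_add, map_one, map_natCast, Nat.cast_add,
    Nat.cast_one, add_tsub_cancel_right]
  ring

lemma Rep.pow (k : ℕ) : ∀ {T : Module.End ℝ ℝ[X]} {Q : ℕ → ℝ[X]}, Rep T Q →
    ∃ c : ℝ, (MP_ecafe5_an.ad ^ k) T 1 = c • Q k := by
  induction k with
  | zero => intro T Q h; exact ⟨1, by simpa using h 1 1 (by simp)⟩
  | succ k ih =>
    intro T Q h
    obtain ⟨c, hc⟩ := ih h.ad
    exact ⟨c * (k + 1), by rw [pow_succ, Module.End.mul_apply, hc, smul_smul]⟩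

theorem qq_zero : ∀ (k : ℕ) (γ : ℕ → ℝ) (j : ℕ), (∀ i, k ≠ j + 2 * i) → (qq k γ).coeff j = 0
  | 0, γ, j, h => by
    rcases j with _ | j
    · exact absurd rfl (h 0)
    · simp [qq, coeff_C_succ]
  | 1, γ, j, h => by
    rcases j with _ | _ | j
    · simp [qq]
    · exact absurd rfl (h 0)
    · rw [qq, coeff_X_mul, coeff_C_succ]
  | k + 2, γ, j, h => by
    rw [qq, coeff_sub, coeff_C_mul, qq_zero k _ j fun i hi => h (i + 1) (by omega)]
    rcases j with _ | j
    · simp
    · rw [coeff_X_mul, qq_zero (k + 1) _ j fun i hi => h i (by omega)]; simp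

theorem qq_coeff : ∀ (k : ℕ) (γ : ℕ → ℝ) (j i : ℕ), k = j + 2 * i →
    ∃ w : ℝ, 0 < w ∧ (qq k γ).coeff j = (-1) ^ i * w * (sm^[i] (dl^[j + i] γ)) 0
  | 0, γ, j, i, h => by
    obtain rfl : j = 0 := by omega
    obtain rfl : i = 0 := by omega
    exact ⟨1, one_pos, by simp [qq]⟩
  | 1, γ, j, i, h => by
    obtain rfl : j = 1 := by omega
    obtain rfl : i = 0 := by omega
    exact ⟨1, one_pos, by simp [qq]⟩
  | k + 2, γ, j, i, h => by
    have e : ∀ a b : ℕ, sm^[a] (dl^[b] (sm (dl γ))) = sm^[a + 1] (dl^[b + 1] γ) := fun a b => by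
      rw [(comm_dl_sm.iterate_left b).eq]; rfl
    rw [qq, coeff_sub, coeff_C_mul]
    rcases j with _ | j
    · obtain ⟨i, rfl⟩ : ∃ i', i = i' + 1 := ⟨i - 1, by omega⟩
      obtain ⟨w, hw, h1⟩ := qq_coeff k (sm (dl γ)) 0 i (by omega)
      refine ⟨(k + 1) / 2 * w, by positivity, ?_⟩
      rw [h1, e, ← add_assoc]
      simp only [mul_coeff_zero, coeff_X_zero]
      ring
    · obtain ⟨w, hw, h1⟩ := qq_coeff (k + 1) (dl γ) j i (by omega)
      rw [coeff_X_mul, h1, add_right_comm j 1 i, Function.iterate_succ_apply dl (j + i)]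
      rcases i with _ | i
      · refine ⟨w, hw, ?_⟩
        rw [qq_zero k _ _ fun i hi => by omega]
        ring
      · obtain ⟨w', hw', h2⟩ := qq_coeff k (sm (dl γ)) (j + 1) i (by omega)
        refine ⟨w + (k + 1) / 2 * w', by positivity, ?_⟩
        rw [h2, e, add_right_comm j 1 i, ← add_assoc j i 1, Function.iterate_succ_apply dl (j + i + 1)]
        ring

lemma V_of_Rep {γ : ℕ → ℝ} {Q : ℕ → ℝ[X]} (h : Rep (DT ℝ γ) Q) (hQ : ∀ k, RZ (Q k)) (n : ℕ) :
    ∃ ε : ℝ, ε ^ 2 = 1 ∧ V ε n (dl^[n] γ) := by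
  obtain ⟨c, hc⟩ := h.pow (2 * n)
  have hq : RZ (qq (2 * n) γ) := by rw [← ad_qq, hc]; exact (hQ _).smul c
  have hz : ∀ t, (qq (2 * n) γ).coeff (2 * t + 1) = 0 := fun t =>
    qq_zero _ _ _ fun i hi => by omega
  obtain ⟨ε, hε, h1⟩ := sign_chain (fun t => (-1) ^ t * (qq (2 * n) γ).coeff (2 * t))
    (fun t => by
      have h2 := hq.lag (2 * t) (hz t)
      have h3 : ((-1 : ℝ) ^ t) ^ 2 = 1 := by rw [← pow_mul, mul_comm, pow_mul]; simp
      rw [mul_add 2 t 1, pow_succ]
      nlinarith)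
    (fun t h2 h3 l => by
      have h4 := hq.gap (2 * t) (right_ne_zero_of_mul h2) (hz t)
        ((mul_eq_zero.1 h3).resolve_left (by simp)) (2 * l + 1)
      rw [show 2 * (t + (l + 1)) = 2 * t + (2 * l + 1 + 1) by ring, h4, mul_zero])
  refine ⟨ε * (-1) ^ n, by rw [mul_pow, hε, ← pow_mul, mul_comm n, pow_mul]; simp,
    V_of _ _ _ fun i j hij => ?_⟩
  obtain ⟨w, hw, h2⟩ := qq_coeff (2 * n) γ (2 * j) i (by omega)
  have h3 := h1 j
  rw [h2, show 2 * j + i = j + n by omega, Function.iterate_add_apply] at h3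
  refine (mul_nonneg_iff_of_pos_left hw).1 (h3.trans_eq ?_)
  rw [← hij, pow_add]
  ring

end Pool.Agent.H.MP_ecafe5_an
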