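import Pool.Agent.H.MP_ecafe5_an.Herm

set_option autoImplicit false
open Polynomial Filter Topology

namespace Pool.Agent.H.MP_ecafe5_an

/-- The complex diagonal operator preserves stability. -/
def PS (γ : ℕ → ℝ) : Prop := ∀ p : ℂ[X], St p → St (DT ℂ (fun n => (γ n : ℂ)) p)

lemma St.smul {p : ℂ[X]} (h : St p) (c : ℂ) : St (c • p) := by
  by_cases hc : c = 0
  · left; simp [hc]
  rcases h with rfl | h
  · left; simp
  · exact Or.inr fun z hz => by rw [eval_smul]; exact mul_ne_zero hc (h z hz)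

lemma PS.step {γ : ℕ → ℝ} (h : PS γ) (hp : ∀ n, 0 < γ n) {ζ : ℝ} (hζ : 0 ≤ ζ) :
    PS fun n => ζ * γ n + n * γ (n - 1) := by
  intro p hS
  have e := DT_step (ζ : ℂ) fun n => (γ n : ℂ)
  push_cast
  rw [e]
  set T := DT ℂ fun n => (γ n : ℂ) with hT
  have hinj : ∀ u, T u = 0 → u = 0 := fun u hu =>
    DT_inj (fun n => by exact_mod_cast (hp n).ne') hu
  simp only [xo, Do, LinearMap.add_apply, LinearMap.smul_apply, Module.End.mul_apply,
    LinearMap.sub_apply, LinearMap.mulLeft_apply]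
  by_cases hd : derivative p = 0
  · simpa [hd] using (h p hS).smul ζ
  have hp0 : ∀ z : ℂ, 0 < z.im → p.eval z ≠ 0 := hS.resolve_left fun h0 => hd (by simp [h0])
  have hq := (h _ hS.deriv).resolve_left fun h0 => hd (hinj _ h0)
  refine Or.inr fun z hz => ?_
  set q := T (derivative p) with hqd
  have hq0 : q.eval z ≠ 0 := hq z hz
  obtain ⟨s, hs, hs2⟩ : ∃ s : ℂ, 0 < s.im ∧
      s * q.eval z = z * q.eval z - 1 / 2 * (derivative q).eval z := by
    refine ⟨z - (1 / 2 : ℝ) * ((derivative q).eval z / q.eval z), ?_, by push_cast; field_simp⟩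
    have := (logder hq hz).1
    rw [Complex.sub_im, Complex.im_ofReal_mul]
    linarith
  have hu : ∀ w : ℂ, 0 < w.im → ((ζ : ℂ) • p + s • derivative p).eval w ≠ 0 := fun w hw h0 => by
    have h1 := (logder hp0 hw).2 hd
    set r := (derivative p).eval w / p.eval w with hr
    have h2 : (ζ : ℂ) + s * r = 0 := by
      rw [hr]
      have := hp0 w hw
      simp only [eval_add, eval_smul, smul_eq_mul] at h0
      field_simp
      linear_combination h0
    have h3 := congrArg Complex.re h2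
    have h4 := congrArg Complex.im h2
    simp at h3 h4
    have h5 : ζ * s.im = (s.re ^ 2 + s.im ^ 2) * r.im := by
      linear_combination s.im * h3 - s.re * h4
    have h6 : 0 < s.re ^ 2 + s.im ^ 2 := by positivity
    have := mul_neg_of_pos_of_neg h6 h1
    have := mul_nonneg hζ hs.le
    linarith
  have hv := (h _ (Or.inr hu)).resolve_left (fun h0 => hu z hz (by rw [hinj _ h0, eval_zero])) z hz
  intro h0
  apply hv
  rw [← hT, map_add, map_smul, map_smul, ← hqd]
  simp only [eval_add, eval_smul, eval_sub, eval_mul, eval_X, smul_eq_mul] at h0 ⊢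
  rw [hs2, h0]

lemma PS.lim {f : ℕ → ℕ → ℝ} {γ : ℕ → ℝ} (h : ∀ m, PS (f m))
    (ht : ∀ n, Tendsto (fun m => f m n) atTop (𝓝 (γ n))) : PS γ := by
  intro p hS
  obtain ⟨B, hB⟩ := DT_deg p
  refine St.lim (fun m => h m p hS) (fun m => hB _) fun z => ?_
  clear hS hB
  induction p using HH_ind with
  | h0 => simp
  | ha p q hp hq => simpa using hp.add hq
  | hs c p hp => simpa using hp.const_mul c
  | hH n =>
    simp only [DT_HH, eval_smul, smul_eq_mul]
    exact ((Complex.continuous_ofReal.tendsto _).comp (ht n)).mul_const _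

/-- Limits of positive stability preserving sequences. -/
def PP (γ : ℕ → ℝ) : Prop := ∃ f : ℕ → ℕ → ℝ, (∀ m, PS (f m) ∧ ∀ n, 0 < f m n) ∧
  ∀ n, Tendsto (fun m => f m n) atTop (𝓝 (γ n))

lemma tends_eps (a : ℝ) : Tendsto (fun m : ℕ => a + 1 / ((m : ℝ) + 1)) atTop (𝓝 a) := by
  simpa using tendsto_one_div_add_atTop_nhds_zero_nat.const_add a

lemma PP.const {a : ℝ} (ha : 0 ≤ a) : PP fun _ => a := by
  refine ⟨fun m _ => a + 1 / ((m : ℝ) + 1), fun m => ⟨fun p hp => ?_, fun _ => by positivity⟩,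
    fun _ => tends_eps a⟩
  have e : ∀ c : ℂ, (DT ℂ fun _ => c) = c • 1 := fun c => HH_ext fun n => by simp [DT_HH]
  rw [e]
  exact hp.smul _

lemma PP.step {γ : ℕ → ℝ} (h : PP γ) {ζ : ℝ} (hζ : 0 ≤ ζ) :
    PP fun n => ζ * γ n + n * γ (n - 1) := by
  obtain ⟨f, h1, h2⟩ := h
  refine ⟨fun m n => (ζ + 1 / ((m : ℝ) + 1)) * f m n + n * f m (n - 1),
    fun m => ⟨(h1 m).1.step (h1 m).2 (by positivity), fun n => ?_⟩,
    fun n => ((tends_eps ζ).mul (h2 n)).add ((h2 _).const_mul _)⟩
  have := (h1 m).2 n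
  have := (h1 m).2 (n - 1)
  positivity

/-- Eigenvalues attached to a polynomial through falling factorials. -/
noncomputable def ev (ψ : ℝ[X]) (n : ℕ) : ℝ :=
  ∑ k ∈ Finset.range (n + 1), ψ.coeff k * n.descFactorial k

lemma ev_mul (r : ℝ) (ψ : ℝ[X]) :
    ev ((X - C r) * ψ) = fun n => -r * ev ψ n + n * ev ψ (n - 1) := by
  funext n
  simp only [ev, sub_mul, coeff_sub, coeff_C_mul, Finset.sum_sub_distrib, mul_assoc,
    ← Finset.mul_sum]
  rw [Finset.sum_range_succ']
  rcases n with _ | n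
  · simp
  · simp only [coeff_X_mul, Nat.succ_descFactorial_succ, mul_coeff_zero, coeff_X_zero,
      add_tsub_cancel_right, Finset.mul_sum, Nat.cast_mul, zero_mul, add_zero, neg_mul,
      Finset.sum_neg_distrib]
    rw [sub_eq_neg_add]
    congr 1
    exact Finset.sum_congr rfl fun k _ => by ring

lemma PS_ev {ψ : ℝ[X]} (h : RZ ψ) (hc : ∀ k, 0 ≤ ψ.coeff k) : PS (ev ψ) := by
  have hr : ∀ r ∈ ψ.roots, r ≤ 0 := fun r hr => by
    by_contra h1
    push Not at h1
    obtain ⟨h0, h2⟩ := mem_roots'.1 hr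
    rw [IsRoot, eval_eq_sum_range] at h2
    refine (Finset.sum_pos' (fun k _ => mul_nonneg (hc k) (by positivity))
      ⟨ψ.natDegree, by simp, mul_pos ?_ (by positivity)⟩).ne' h2
    exact (hc _).lt_of_ne (leadingCoeff_ne_zero.2 h0).symm
  have key : ∀ s : Multiset ℝ, (∀ r ∈ s, r ≤ 0) →
      PP (ev (C ψ.leadingCoeff * (s.map (X - C ·)).prod)) := by
    intro s
    induction s using Multiset.induction_on with
    | empty =>
      intro _
      have e : ev (C ψ.leadingCoeff * ((0 : Multiset ℝ).map (X - C ·)).prod) =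
          fun _ => ψ.leadingCoeff := by
        funext n
        simp [ev, Finset.sum_range_succ', coeff_C_succ]
      rw [e]
      exact PP.const (hc _)
    | cons a s ih =>
      intro hs
      rw [Multiset.map_cons, Multiset.prod_cons, mul_left_comm, ev_mul]
      exact (ih fun r hr => hs r (Multiset.mem_cons_of_mem hr)).step
        (neg_nonneg.2 (hs a (Multiset.mem_cons_self a s)))
  obtain ⟨f, h1, h2⟩ := key _ hr
  rw [← h.splits.eq_prod_roots] at h2
  exact PS.lim (fun m => (h1 m).1) h2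

lemma tends_choose (k : ℕ) : Tendsto (fun d : ℕ => ((d + 1).choose k : ℝ) * (1 / ((d : ℝ) + 1)) ^ k)
    atTop (𝓝 (1 / k.factorial)) := by
  have h1 := ((isEquivalent_choose k).comp_tendsto (tendsto_add_atTop_nat 1)).mul
    (Asymptotics.IsEquivalent.refl (u := fun d : ℕ => (1 / ((d : ℝ) + 1)) ^ k))
  refine h1.symm.tendsto_nhds (tendsto_const_nhds.congr fun d => ?_)
  simp only [Pi.mul_apply, Function.comp_apply]
  push_cast
  field_simp
  rw [← mul_pow, mul_one_div_cancel (by positivity), one_pow]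

/-- Nondecreasing nonnegative multiplier sequences give stability preservers. -/
lemma PS_mono {δ : ℕ → ℝ} (h : A δ) (h0 : ∀ j, 0 ≤ δ j) (h1 : ∀ j, δ j ≤ δ (j + 1)) : PS δ := by
  have hc := h.cs_nonneg h0 h1
  have e : ∀ (t : ℝ) (d k : ℕ), (FP (lin 0 t) (lin 1 (-t)) d δ).coeff k =
      d.choose k * t ^ k * cs δ k := fun t d k => by
    rw [show lin 1 (-t) = 1 - lin 0 t by simp [lin, sub_eq_add_neg], FP_cs,
      show lin 0 t = t • X by simp [lin, smul_eq_C_mul], ← one_smul ℝ (FP _ _ _ _), ← FP_scale,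
      FP_coeff]
    ring
  refine PS.lim (f := fun d : ℕ => ev (FP (lin 0 (1 / ((d : ℝ) + 1)))
    (lin 1 (-(1 / ((d : ℝ) + 1)))) (d + 1) δ)) (fun d => PS_ev ((chart ?_ _ _).2 (h _)) fun k => ?_)
    fun n => ?_
  · have : (0 : ℝ) < 1 / ((d : ℝ) + 1) := by positivity
    intro h2; linarith
  · rw [e]; have := hc k; positivity
  · have e2 : δ n = ∑ k ∈ Finset.range (n + 1),
        1 / (k.factorial : ℝ) * cs δ k * n.descFactorial k := by
      have h2 := FP_cs (1 : ℝ) 1 n δ
      rw [sub_self, FP_one_zero] at h2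
      have h3 := FP_eval 0 1 1 0 n (cs δ) 1
      rw [eval_eq_sum_range' (Nat.lt_succ_of_le (FP_deg _ _ _ _ _ _)), lin01, lin10] at h3
      simp only [FP_coeff, zero_add, mul_one, zero_mul, add_zero, one_pow] at h3
      rw [h2, ← h3]
      refine Finset.sum_congr rfl fun k _ => ?_
      rw [Nat.descFactorial_eq_factorial_mul_choose]
      push_cast
      have : (k.factorial : ℝ) ≠ 0 := by positivity
      field_simp
    rw [e2]
    simp only [ev, e]
    exact tendsto_finsetSum _ fun k _ => ((tends_choose k).mul_const _).mul_const _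

lemma PS.rz {δ : ℕ → ℝ} (h : PS δ) {p : ℝ[X]} (hp : RZ p) : RZ (DT ℝ δ p) := by
  rw [rz_iff, DT_map]
  exact h _ ((rz_iff p).1 hp)

theorem main (γ : ℕ → ℝ) (Q : ℕ → ℝ[X])
    (hγ : ∀ p q : ℝ[X], RZ p → (∀ n, q.coeff n = γ n * p.coeff n) → RZ q)
    (hR : Rep (DT ℝ γ) Q) (hQ : ∀ k, RZ (Q k)) (p : ℝ[X]) (hp : RZ p) : RZ (DT ℝ γ p) := by
  have hA : A γ := fun d => (good_iff d γ).2 (hγ ((1 + X) ^ d) _ (Or.inr fun z hz => by
    have h1 : (1 + z) ^ d = 0 := by simpa using hz
    have h2 := congrArg Complex.im (pow_eq_zero_iff'.1 h1).1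
    simpa using h2) fun n => by rw [FP_coeff, coeff_one_add_X_pow, mul_comm])
  have h2 : ∀ k, 0 ≤ γ k * γ (k + 2) := fun k => by
    have h1 := hγ (X ^ k - X ^ (k + 2)) (C (γ k) * X ^ k - C (γ (k + 2)) * X ^ (k + 2))
      (Or.inr fun z hz => by
        have h3 : z ^ k * ((1 - z) * (1 + z)) = 0 := by
          simp only [map_sub, map_pow, aeval_X] at hz
          linear_combination hz
        rcases mul_eq_zero.1 h3 with h4 | h4
        · rw [(pow_eq_zero_iff'.1 h4).1]; rfl
        · rcases mul_eq_zero.1 h4 with h5 | h5 <;> simpa using congrArg Complex.im h5)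
      fun n => by
        simp only [coeff_sub, coeff_C_mul, coeff_X_pow, mul_sub]
        congr 1 <;> split_ifs with h3 <;> simp [*]
    have h3 := h1.lag k (by simp [coeff_X_pow])
    simp [coeff_X_pow] at h3
    exact h3
  have h3 : ∀ k, γ k ≠ 0 → γ (k + 2) = 0 → ∀ l, γ (k + 2 + l) = 0 := fun k hk hk2 l => by
    by_cases h4 : γ (k + 1) = 0
    · exact Eq.trans (by congr 1; omega) (hA.gap k hk h4 hk2 (l + 1))
    · have h5 := hA.lc (k + 1)
      rw [show k + 1 + 1 = k + 2 from rfl, hk2] at h5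
      have h6 : γ (k + 1) * γ (k + 1 + 2) = 0 := le_antisymm (by simpa using h5) (h2 _)
      exact Eq.trans (by congr 1; omega)
        (hA.gap (k + 1) h4 hk2 ((mul_eq_zero.1 h6).resolve_left h4) l)
  obtain ⟨e0, he0, s0⟩ := sign_chain (fun i => γ (2 * i)) (fun i => h2 (2 * i))
    fun i a b l => Eq.trans (by congr 1; omega) (h3 (2 * i) a b (2 * l))
  obtain ⟨e1, he1, s1⟩ := sign_chain (fun i => γ (2 * i + 1)) (fun i => h2 (2 * i + 1))
    fun i a b l => Eq.trans (by congr 1; omega) (h3 (2 * i + 1) a b (2 * l))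
  have hω : (e0 * e1) ^ 2 = 1 := by rw [mul_pow, he0, he1, mul_one]
  have hδ := hA.scale e0 (t := e0 * e1) (fun h => by simp [h] at hω)
  set δ := fun j => e0 * (e0 * e1) ^ j * γ j with hδd
  have h0 : ∀ j, 0 ≤ δ j := fun j => by
    rcases Nat.even_or_odd' j with ⟨i, rfl | rfl⟩
    · simpa [hδd, pow_mul, hω] using s0 i
    · have : δ (2 * i + 1) = e0 ^ 2 * (e1 * γ (2 * i + 1)) := by
        simp only [hδd, pow_succ _ (2 * i), pow_mul, hω]; ring
      rw [this, he0, one_mul]
      exact s1 i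
  have hg : γ = fun j => e0 * (e0 * e1) ^ j * δ j := by
    funext j
    have : e0 * (e0 * e1) ^ j * δ j = e0 ^ 2 * ((e0 * e1) ^ 2) ^ j * γ j := by
      simp only [hδd]; ring
    rw [this, he0, hω]; simp
  clear_value δ
  rcases sq_eq_one_iff.1 hω with h4 | h4
  · simp only [h4, one_pow, mul_one] at hg
    have e : DT ℝ γ = e0 • DT ℝ δ := by rw [hg]; exact DT_smul e0 δ
    have hR' : Rep (DT ℝ δ) fun k => e0 • Q k := fun p N hN => by
      have h5 := hR p N hN
      rw [e, LinearMap.smul_apply] at h5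
      simp only [smul_mul_assoc, ← Finset.smul_sum, ← h5, smul_smul, ← pow_two, he0, one_smul]
    rw [e]
    exact ((PS_mono hδ h0 (five_pos hδ h0 (V_of_Rep hR' fun k => (hQ k).smul e0))).rz hp).smul e0
  · rw [h4] at hg
    subst hg
    rw [DT_alt]
    exact ((PS_mono hδ h0 (five_alt hδ h0 he0 (V_of_Rep hR hQ))).rz hp.neg_X).smul e0

end Pool.Agent.H.MP_ecafe5_an
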