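import Pool.Agent.H.MP_ecafe5_an.Tool

set_option autoImplicit false
open Polynomial Filter Topology

namespace Pool.Agent.H.MP_ecafe5_an

def sh (γ : ℕ → ℝ) : ℕ → ℝ := fun j => γ (j + 1)
def dl (γ : ℕ → ℝ) : ℕ → ℝ := fun j => γ (j + 1) - γ j
def sm (γ : ℕ → ℝ) : ℕ → ℝ := fun j => γ (j + 1) + γ j
def sft (b : ℕ) (γ : ℕ → ℝ) : ℕ → ℝ := fun j => γ (j + b)
def cs (γ : ℕ → ℝ) : ℕ → ℝ := fun j => (dl^[j] γ) 0

/-- The homogeneous Jensen form `((a E + b) ^ d γ) 0`. -/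
noncomputable def FP {R : Type*} [CommRing R] [Algebra ℝ R] (a b : R) : ℕ → (ℕ → ℝ) → R
  | 0, γ => algebraMap ℝ R (γ 0)
  | d + 1, γ => b * FP a b d γ + a * FP a b d (sh γ)

section gen
variable {R : Type*} [CommRing R] [Algebra ℝ R]

lemma FP_lin (a b : R) (s t : ℝ) (d : ℕ) : ∀ γ η : ℕ → ℝ,
    FP a b d (s • γ + t • η) = s • FP a b d γ + t • FP a b d η := by
  induction d with
  | zero => intro γ η; simp [FP, Algebra.smul_def]
  | succ d ih =>
    intro γ η
    have e : sh (s • γ + t • η) = s • sh γ + t • sh η := rfl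
    simp only [FP, e, ih]
    simp only [Algebra.smul_def]
    ring

lemma FP_map {S : Type*} [CommRing S] [Algebra ℝ S] (φ : R →ₐ[ℝ] S) (a b : R) (d : ℕ) :
    ∀ γ, φ (FP a b d γ) = FP (φ a) (φ b) d γ := by
  induction d with
  | zero => intro γ; simp [FP]
  | succ d ih => intro γ; simp [FP, ih]

lemma FP_hom (c a b : R) (d : ℕ) : ∀ γ, FP (c * a) (c * b) d γ = c ^ d * FP a b d γ := by
  induction d with
  | zero => intro γ; simp [FP]
  | succ d ih => intro γ; simp only [FP, ih]; ring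

lemma FP_scale (t : ℝ) (a b : R) (d : ℕ) : ∀ (e : ℝ) (γ : ℕ → ℝ),
    FP a b d (fun j => e * t ^ j * γ j) = e • FP (t • a) b d γ := by
  induction d with
  | zero => intro e γ; simp [FP, Algebra.smul_def]
  | succ d ih =>
    intro e γ
    have h : sh (fun j => e * t ^ j * γ j) = fun j => (e * t) * t ^ j * sh γ j := by
      funext j; simp only [sh]; ring
    simp only [FP, h, ih, Algebra.smul_def, map_mul]
    ring

lemma FP_cs (a b : R) (d : ℕ) : ∀ γ, FP a (b - a) d γ = FP a b d (cs γ) := by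
  induction d with
  | zero => intro γ; simp [FP, cs]
  | succ d ih =>
    intro γ
    have e1 : sh (cs γ) = cs (dl γ) := rfl
    have e2 : dl γ = (1 : ℝ) • sh γ + (-1 : ℝ) • γ := by funext j; simp [dl, sh]; ring
    simp only [FP]
    rw [e1, ← ih, ← ih, e2, FP_lin]
    simp only [one_smul, neg_smul]
    ring

lemma FP_half (w : R) (d : ℕ) (ζ : ℕ → ℝ) : FP w (1 - w) (d + 1) ζ =
    (1 / 2 : ℝ) • FP w (1 - w) d (sm ζ) +
      (w - algebraMap ℝ R (1 / 2)) * FP w (1 - w) d (dl ζ) := by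
  have e1 : sm ζ = (1 : ℝ) • sh ζ + (1 : ℝ) • ζ := by funext j; simp [sm, sh]
  have e2 : dl ζ = (1 : ℝ) • sh ζ + (-1 : ℝ) • ζ := by funext j; simp [dl, sh]; ring
  have e3 : algebraMap ℝ R (1 / 2) * 2 = 1 := by
    rw [← map_ofNat (algebraMap ℝ R) 2, ← map_mul]; norm_num
  rw [e1, e2, FP_lin, FP_lin]
  simp only [FP, Algebra.smul_def, map_one, map_neg]
  linear_combination (-FP w (1 - w) d ζ) * e3

end gen

lemma FP_one_zero (d : ℕ) : ∀ γ, FP (1 : ℝ) 0 d γ = γ d := by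
  induction d with
  | zero => intro γ; simp [FP]
  | succ d ih => intro γ; simp [FP, ih, sh]

lemma FP_zero_one (d : ℕ) : ∀ γ, FP (0 : ℝ) 1 d γ = γ 0 := by
  induction d with
  | zero => intro γ; simp [FP]
  | succ d ih => intro γ; simp [FP, ih]

lemma FP_coeff (d : ℕ) : ∀ (γ : ℕ → ℝ) (n : ℕ),
    (FP (X : ℝ[X]) 1 d γ).coeff n = d.choose n * γ n := by
  induction d with
  | zero =>
    intro γ n
    rcases n with _ | n <;> simp [FP, coeff_C]
  | succ d ih =>
    intro γ n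
    rcases n with _ | n
    · simp [FP, ih]
    · simp only [FP, one_mul, coeff_add, coeff_X_mul, ih, sh, Nat.choose_succ_succ, Nat.cast_add]
      ring

lemma FP_le {a b θ : ℝ} (ha : 0 ≤ a) (hb : 0 ≤ b) (d : ℕ) : ∀ (K : ℝ) (γ : ℕ → ℝ),
    (∀ j, γ j ≤ K * θ ^ j) → FP a b d γ ≤ K * (a * θ + b) ^ d := by
  induction d with
  | zero => intro K γ h; simpa [FP] using h 0
  | succ d ih =>
    intro K γ h
    have h1 := mul_le_mul_of_nonneg_left (ih K γ h) hb
    have h2 := mul_le_mul_of_nonneg_left (ih (K * θ) (sh γ) fun j => by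
      have := h (j + 1)
      rw [pow_succ] at this
      simp only [sh]; linarith) ha
    simp only [FP, pow_succ]
    linarith

lemma FP_nonneg {a b : ℝ} (ha : 0 ≤ a) (hb : 0 ≤ b) (d : ℕ) : ∀ γ : ℕ → ℝ,
    (∀ j, 0 ≤ γ j) → 0 ≤ FP a b d γ := by
  induction d with
  | zero => intro γ h; simpa [FP] using h 0
  | succ d ih =>
    intro γ h
    exact add_nonneg (mul_nonneg hb (ih γ h)) (mul_nonneg ha (ih _ fun j => h (j + 1)))

lemma FP_pos {a b : ℝ} (ha : 0 ≤ a) (hb : 0 < b) (d : ℕ) {γ : ℕ → ℝ}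
    (h : ∀ j, 0 ≤ γ j) (h0 : 0 < γ 0) : 0 < FP a b d γ := by
  induction d with
  | zero => simpa [FP] using h0
  | succ d ih =>
    exact add_pos_of_pos_of_nonneg (mul_pos hb ih)
      (mul_nonneg ha (FP_nonneg ha hb.le d _ fun j => h (j + 1)))

/-- The affine polynomial `α + β X`. -/
noncomputable def lin (α β : ℝ) : ℝ[X] := C α + C β * X

lemma FP_aeval (α β α' β' : ℝ) (d : ℕ) (γ : ℕ → ℝ) (z : ℂ) :
    aeval z (FP (lin α β) (lin α' β') d γ) = FP (α + β * z) (α' + β' * z) d γ := by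
  rw [FP_map]; simp [lin]

lemma FP_eval (α β α' β' : ℝ) (d : ℕ) (γ : ℕ → ℝ) (x : ℝ) :
    eval x (FP (lin α β) (lin α' β') d γ) = FP (α + β * x) (α' + β' * x) d γ := by
  rw [← coe_aeval_eq_eval, FP_map]; simp [lin]

lemma FP_deriv (α β α' β' : ℝ) (d : ℕ) : ∀ γ : ℕ → ℝ,
    derivative (FP (lin α β) (lin α' β') (d + 1) γ) =
      ((d : ℝ) + 1) • FP (lin α β) (lin α' β') d (β • sh γ + β' • γ) := by
  have h1 : ∀ u v, derivative (lin u v) = C v := fun u v => by simp [lin]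
  induction d with
  | zero => intro γ; simp [FP, h1, sh]; ring
  | succ d ih =>
    intro γ
    have e : sh (β • sh γ + β' • γ) = β • sh (sh γ) + β' • sh γ := rfl
    rw [FP, derivative_add, derivative_mul, derivative_mul, ih, ih, h1, h1]
    have e2 := FP_lin (lin α β) (lin α' β') β β' (d + 1) (sh γ) γ
    rw [FP, e] at e2
    conv_rhs => rw [FP, e]
    simp only [smul_eq_C_mul, Nat.cast_add, Nat.cast_one, map_add, map_one] at e2 ⊢
    linear_combination (-1 : ℝ[X]) * e2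

lemma FP_deg (α β α' β' : ℝ) (d : ℕ) : ∀ γ : ℕ → ℝ,
    (FP (lin α β) (lin α' β') d γ).natDegree ≤ d := by
  have h1 : ∀ u v, (lin u v).natDegree ≤ 1 := fun u v => by unfold lin; compute_degree
  induction d with
  | zero => intro γ; simp [FP]
  | succ d ih =>
    intro γ
    refine natDegree_add_le_of_degree_le ?_ ?_
    · exact natDegree_mul_le.trans (by have := ih γ; have := h1 α' β'; omega)
    · exact natDegree_mul_le.trans (by have := ih (sh γ); have := h1 α β; omega)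

/-- The Jensen form of degree `d` vanishes at no nonreal point, or at all of them. -/
def Good (d : ℕ) (γ : ℕ → ℝ) : Prop :=
  (∀ a b : ℂ, (a * starRingEnd ℂ b).im ≠ 0 → FP a b d γ ≠ 0) ∨
    ∀ a b : ℂ, (a * starRingEnd ℂ b).im ≠ 0 → FP a b d γ = 0

lemma chart {α β α' β' : ℝ} (h : α * β' - α' * β ≠ 0) (d : ℕ) (γ : ℕ → ℝ) :
    RZ (FP (lin α β) (lin α' β') d γ) ↔ Good d γ := by
  have key : ∀ a b : ℂ, (a * starRingEnd ℂ b).im ≠ 0 → ∃ s z : ℂ, s ≠ 0 ∧ z.im ≠ 0 ∧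
      FP a b d γ = s ^ d * aeval z (FP (lin α β) (lin α' β') d γ) := by
    intro a b hab
    have hc : ((α : ℂ) * β' - α' * β) ≠ 0 := by exact_mod_cast h
    obtain ⟨s, t, rfl, rfl⟩ : ∃ s t : ℂ, a = α * s + β * t ∧ b = α' * s + β' * t :=
      ⟨(a * β' - b * β) * ((α : ℂ) * β' - α' * β)⁻¹,
        (b * α - a * α') * ((α : ℂ) * β' - α' * β)⁻¹,
        by linear_combination (-a) * mul_inv_cancel₀ hc,
        by linear_combination (-b) * mul_inv_cancel₀ hc⟩
    have hs : s ≠ 0 := by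
      rintro rfl
      apply hab
      simp; ring
    obtain ⟨z, rfl⟩ : ∃ z, t = s * z := ⟨t / s, by field_simp⟩
    refine ⟨s, z, hs, fun hz => hab ?_, ?_⟩
    · simp [hz]; ring
    · rw [FP_aeval, ← FP_hom]
      congr 1 <;> ring
  have him : ∀ z : ℂ, z.im ≠ 0 →
      (((α : ℂ) + β * z) * starRingEnd ℂ ((α' : ℂ) + β' * z)).im ≠ 0 := fun z hz h0 => by
    refine mul_ne_zero h hz ?_
    simp at h0
    linarith
  constructor
  · rintro (h0 | h0)
    · refine Or.inr fun a b hab => ?_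
      obtain ⟨s, z, -, -, e⟩ := key a b hab
      rw [e, h0, map_zero, mul_zero]
    · refine Or.inl fun a b hab => ?_
      obtain ⟨s, z, hs, hz, e⟩ := key a b hab
      rw [e]
      exact mul_ne_zero (pow_ne_zero _ hs) fun h1 => hz (h0 z h1)
  · rintro (h0 | h0)
    · refine Or.inr fun z hz => ?_
      by_contra hc
      exact h0 _ _ (him z hc) (by rwa [FP_aeval] at hz)
    · left
      rw [← Polynomial.map_eq_zero_iff (algebraMap ℝ ℂ).injective]
      refine eq_zero_of_infinite_isRoot _ (Set.infinite_of_injective_forall_mem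
        (f := fun n : ℕ => (n : ℂ) + Complex.I) (fun m n hmn => ?_) fun n => ?_)
      · simpa using hmn
      · rw [Set.mem_ofPred_eq, IsRoot, eval_map_algebraMap, FP_aeval]
        exact h0 _ _ (him _ (by simp))

/-- All Jensen forms are real rooted. -/
def A (γ : ℕ → ℝ) : Prop := ∀ d, Good d γ

lemma A.step {γ : ℕ → ℝ} (h : A γ) {β β' : ℝ} (hβ : β ≠ 0) : A (β • sh γ + β' • γ) := by
  intro d
  have hd : β' * β' - (-β) * β ≠ 0 := by
    have := mul_self_pos.2 hβ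
    nlinarith [mul_self_nonneg β']
  have h1 := ((chart hd (d + 1) γ).2 (h _)).deriv
  rw [FP_deriv] at h1
  exact (chart hd d _).1 (RZ.of_smul (by positivity) h1)

lemma A.sh {γ : ℕ → ℝ} (h : A γ) : A (sh γ) := by
  have := h.step (β := 1) (β' := 0) one_ne_zero
  simpa using this

lemma A.dl {γ : ℕ → ℝ} (h : A γ) : A (dl γ) := by
  have := h.step (β := 1) (β' := -1) one_ne_zero
  have e : MP_ecafe5_an.dl γ = (1 : ℝ) • MP_ecafe5_an.sh γ + (-1 : ℝ) • γ := by
    funext j; simp [MP_ecafe5_an.dl, MP_ecafe5_an.sh]; ring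
  rwa [e]

lemma A.sft {γ : ℕ → ℝ} (h : A γ) (b : ℕ) : A (sft b γ) := by
  induction b with
  | zero => exact h
  | succ b ih =>
    have e : MP_ecafe5_an.sft (b + 1) γ = MP_ecafe5_an.sh (MP_ecafe5_an.sft b γ) := by
      funext j; simp only [MP_ecafe5_an.sft, MP_ecafe5_an.sh]; congr 1; omega
    rw [e]; exact ih.sh

lemma lin01 : lin 0 1 = X := by simp [lin]
lemma lin10 : lin 1 0 = 1 := by simp [lin]

lemma good_iff (d : ℕ) (γ : ℕ → ℝ) : Good d γ ↔ RZ (FP X 1 d γ) := by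
  rw [← chart (α := 0) (β := 1) (α' := 1) (β' := 0) (by norm_num), lin01, lin10]

lemma A.scale {γ : ℕ → ℝ} (h : A γ) (e : ℝ) {t : ℝ} (ht : t ≠ 0) :
    A (fun j => e * t ^ j * γ j) := by
  intro d
  rw [good_iff, FP_scale]
  have := (chart (α := 0) (β := t) (α' := 1) (β' := 0) (by simpa using ht) d γ).2 (h d)
  rw [lin10, show lin 0 t = t • X by simp [lin, smul_eq_C_mul] ] at this
  exact this.smul e

lemma A.lc {γ : ℕ → ℝ} (h : A γ) (j : ℕ) : γ j * γ (j + 2) ≤ γ (j + 1) ^ 2 := by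
  by_contra hc
  push Not at hc
  have h2 : γ (j + 2) ≠ 0 := fun h0 => by
    rw [h0] at hc; nlinarith [sq_nonneg (γ (j + 1))]
  obtain ⟨s, hs, hs2⟩ : ∃ s : ℝ, 0 < s ∧ s ^ 2 = γ j * γ (j + 2) - γ (j + 1) ^ 2 :=
    ⟨_, Real.sqrt_pos.2 (by linarith), Real.sq_sqrt (by linarith)⟩
  rcases (good_iff 2 _).1 (h.sft j 2) with h3 | h3
  · have := FP_coeff 2 (MP_ecafe5_an.sft j γ) 2
    rw [h3] at this
    simp [MP_ecafe5_an.sft, add_comm 2 j] at this
    exact h2 this.symm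
  · have h4 := h3 ((-γ (j + 1) + s * Complex.I) / γ (j + 2)) (by
      rw [FP_map]
      have hc2 : (γ (j + 2) : ℂ) ≠ 0 := by exact_mod_cast h2
      have hs3 : (s : ℂ) ^ 2 = γ j * γ (j + 2) - γ (j + 1) ^ 2 := by exact_mod_cast hs2
      simp only [FP, MP_ecafe5_an.sft, MP_ecafe5_an.sh, aeval_X, map_one, zero_add,
        Complex.coe_algebraMap, add_comm 1 j, show 1 + 1 + j = j + 2 by omega]
      field_simp
      linear_combination (-1 : ℂ) * hs3 + (s : ℂ) ^ 2 * Complex.I_sq)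
    rw [Complex.div_ofReal_im] at h4
    simp [h2, hs.ne'] at h4

lemma A.gap {γ : ℕ → ℝ} (h : A γ) (j : ℕ) (h0 : γ j ≠ 0) (h1 : γ (j + 1) = 0)
    (h2 : γ (j + 2) = 0) (l : ℕ) : γ (j + (l + 1)) = 0 := by
  have := ((good_iff (l + 1) _).1 (h.sft j (l + 1))).gap0
    (by simpa [FP_coeff, MP_ecafe5_an.sft] using h0)
    (by simp [FP_coeff, MP_ecafe5_an.sft, add_comm 1 j, h1])
    (by simp [FP_coeff, MP_ecafe5_an.sft, add_comm 2 j, h2]) l
  simpa [FP_coeff, MP_ecafe5_an.sft, add_comm j] using this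

lemma A.decay {γ : ℕ → ℝ} (h : A γ) (hγ : ∀ j, 0 ≤ γ j) {θ : ℝ} (b : ℕ) (h0 : 0 < γ b)
    (h1 : γ (b + 1) ≤ θ * γ b) (j : ℕ) : γ (b + j + 1) ≤ θ * γ (b + j) := by
  have key : ∀ j, (0 < γ (b + j) ∧ γ (b + j + 1) ≤ θ * γ (b + j)) ∨ ∀ l, γ (b + j + l) = 0 := by
    intro j
    induction j with
    | zero => exact Or.inl ⟨h0, h1⟩
    | succ j ih =>
      rcases ih with ⟨h2, h3⟩ | h2
      · have h4 := h.lc (b + j)
        have h5 : γ (b + j + 2) ≤ θ * γ (b + j + 1) := by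
          refine le_of_mul_le_mul_left ?_ h2
          have := mul_le_mul_of_nonneg_left h3 (hγ (b + j + 1))
          nlinarith
        rcases (hγ (b + j + 1)).eq_or_lt with h6 | h6
        · right
          intro l
          rw [← h6, mul_zero] at h5
          refine Eq.trans ?_ (h.gap (b + j) h2.ne' h6.symm (le_antisymm h5 (hγ _)) l)
          congr 1; omega
        · exact Or.inl ⟨h6, h5⟩
      · right
        intro l
        refine Eq.trans ?_ (h2 (l + 1))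
        congr 1; omega
  rcases key j with h2 | h2
  · exact h2.2
  · have h3 := h2 0
    rw [add_zero] at h3
    rw [h2 1, h3, mul_zero]

lemma A.geo {γ : ℕ → ℝ} (h : A γ) (hγ : ∀ j, 0 ≤ γ j) {θ : ℝ} (hθ : 0 ≤ θ) (b : ℕ) (h0 : 0 < γ b)
    (h1 : γ (b + 1) ≤ θ * γ b) (j : ℕ) : γ (b + j) ≤ γ b * θ ^ j := by
  induction j with
  | zero => simp
  | succ j ih =>
    have h2 := h.decay hγ b h0 h1 j
    have h3 := mul_le_mul_of_nonneg_left ih hθ
    rw [pow_succ, ← add_assoc]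
    linarith

lemma A.mono0 {δ : ℕ → ℝ} (h : A δ) (h0 : ∀ j, 0 ≤ δ j) (h1 : ∀ j, 0 ≤ MP_ecafe5_an.dl δ j) :
    MP_ecafe5_an.dl δ 0 ≤ MP_ecafe5_an.dl δ 1 := by
  by_contra hc
  push Not at hc
  set η := MP_ecafe5_an.dl δ with hη
  have hm : 0 < η 0 := (h1 1).trans_lt hc
  set θ := η 1 / η 0 with hθ
  have hθ0 : 0 ≤ θ := div_nonneg (h1 1) hm.le
  have hθ1 : θ < 1 := (div_lt_one hm).2 hc
  have hb : η (0 + 1) ≤ θ * η 0 := by rw [hθ, div_mul_cancel₀ _ hm.ne']
  have hg := fun j => h.dl.geo h1 hθ0 0 hm hb j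
  have hd := fun j => h.dl.decay h1 0 hm hb j
  simp only [zero_add] at hg hd
  have hD : ∀ d, δ 0 + η 0 ≤ δ (d + 1) := fun d => by
    induction d with
    | zero => simp [hη, MP_ecafe5_an.dl]
    | succ d ih => have := h1 (d + 1); simp only [hη, MP_ecafe5_an.dl] at this; linarith
  have hp : 0 < δ 0 + η 0 := by have := h0 0; linarith
  set κ := η 0 / (2 * (δ 0 + η 0)) with hκ
  have hκ0 : 0 < κ := by positivity
  have hκ1 : κ * (2 * (δ 0 + η 0)) = η 0 := div_mul_cancel₀ _ (by positivity)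
  set t := Real.log (1 + κ) with ht
  have ht0 : 0 < t := Real.log_pos (by linarith)
  have hexp : Real.exp t = 1 + κ := Real.exp_log (by linarith)
  obtain ⟨d, hd2, hd3⟩ : ∃ d : ℕ, 2 ≤ d ∧ (d : ℝ) ^ 4 * θ ^ d < t ^ 2 / 32 :=
    ((eventually_ge_atTop 2).and ((tendsto_pow_const_mul_const_pow_of_abs_lt_one 4
      (by rwa [abs_of_nonneg hθ0])).eventually_lt_const (by positivity))).exists
  set P := FP (lin 1 (-1)) (lin 0 1) (d + 2) δ with hP
  have hRZ : RZ P := (chart (by norm_num) _ _).2 (h _)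
  have c0 : P.coeff 0 = δ (d + 2) := by
    rw [coeff_zero_eq_eval_zero, hP, FP_eval]; simp [FP_one_zero]
  have e1 : P.eval 1 = δ 0 := by rw [hP, FP_eval]; simp [FP_zero_one]
  have c1 : P.coeff 1 = -((d + 2) * η (d + 1)) := by
    have : P.coeff 1 = (derivative P).coeff 0 := by simp [coeff_derivative]
    rw [this, coeff_zero_eq_eval_zero, hP, FP_deriv, eval_smul, FP_eval]
    simp [FP_one_zero, hη, MP_ecafe5_an.dl, MP_ecafe5_an.sh]
    ring
  have c2 : 2 * P.coeff 2 = (d + 2) * (d + 1) * (η (d + 1) - η d) := by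
    have : 2 * P.coeff 2 = (derivative (derivative P)).coeff 0 := by
      simp [coeff_derivative]; ring
    rw [this, coeff_zero_eq_eval_zero, hP, FP_deriv, derivative_smul, FP_deriv, eval_smul,
      eval_smul, FP_eval]
    simp [FP_one_zero, hη, MP_ecafe5_an.dl, MP_ecafe5_an.sh]
    ring
  set D := δ (d + 2) with hDd
  have hD1 : δ 0 + η 0 ≤ D := hD (d + 1)
  have hD0 : 0 < D := hp.trans_le hD1
  have hdr : (2 : ℝ) ≤ d := by exact_mod_cast hd2
  have hθd : θ ^ d ≤ 1 := pow_le_one₀ hθ0 hθ1.le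
  have hθd0 : 0 ≤ θ ^ d := pow_nonneg hθ0 d
  have a1 : η d ≤ D * θ ^ d :=
    (hg d).trans (mul_le_mul_of_nonneg_right (by have := h0 0; linarith) hθd0)
  have a2 : η (d + 1) ≤ η d := (hd d).trans (mul_le_of_le_one_left (h1 d) hθ1.le)
  have a3 : η (d + 1) ^ 2 ≤ D ^ 2 * θ ^ d := by
    have b1 : η (d + 1) ≤ D := a2.trans (a1.trans (mul_le_of_le_one_right hD0.le hθd))
    have := mul_le_mul b1 (a2.trans a1) (h1 _) hD0.le
    nlinarith
  have a4 : 2 * ((d : ℝ) + 2) ^ 4 * θ ^ d ≤ t ^ 2 := by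
    have b1 : ((d : ℝ) + 2) ^ 4 ≤ (2 * d) ^ 4 := pow_le_pow_left₀ (by positivity) (by linarith) 4
    have := mul_le_mul_of_nonneg_right b1 hθd0
    nlinarith
  have hkl := hRZ.kl (by rw [c0]; exact hD0.ne') (FP_deg _ _ _ _ _ _) (τ := t / (d + 2))
    (by positivity) (by
      rw [mul_right_comm, c2, c1, c0]
      have b1 : 2 * ((d : ℝ) + 2) ^ 2 * θ ^ d ≤ (t / (d + 2)) ^ 2 := by
        rw [div_pow t, le_div_iff₀ (by positivity)]; linarith
      have b2 := mul_le_mul_of_nonneg_left b1 (sq_nonneg D)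
      have b3 := mul_le_mul_of_nonneg_left a3 (sq_nonneg ((d : ℝ) + 2))
      have b4 := mul_le_mul_of_nonneg_left a1 (by positivity : 0 ≤ ((d : ℝ) + 2) ^ 2 * D)
      have b5 : 0 ≤ ((d : ℝ) + 2) * (d + 1) * η (d + 1) * D := by have := h1 (d + 1); positivity
      have b6 : 0 ≤ ((d : ℝ) + 2) * η d * D := by have := h1 d; positivity
      nlinarith) 1
  have a5 : (1 + |(1 : ℝ)| * (t / (d + 2))) ^ (d + 2) ≤ 1 + κ := by
    have b1 := pow_le_pow_left₀ (by positivity) (Real.add_one_le_exp (t / (d + 2))) (d + 2)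
    rw [← Real.exp_nat_mul] at b1
    have b2 : ((d + 2 : ℕ) : ℝ) * (t / (d + 2)) = t := by push_cast; field_simp
    rw [b2, hexp] at b1
    rwa [abs_one, one_mul, add_comm]
  rw [e1, c0, abs_of_pos hD0] at hkl
  have a6 := (neg_le_abs (δ 0 - D)).trans hkl
  have a7 := mul_le_mul_of_nonneg_right a5 hD0.le
  have a8 : κ ≤ 1 / 2 := by
    rw [hκ, div_le_div_iff₀ (by positivity) (by norm_num)]; have := h0 0; linarith
  nlinarith

lemma A.cs_nonneg {δ : ℕ → ℝ} (h : A δ) (h0 : ∀ j, 0 ≤ δ j) (h1 : ∀ j, δ j ≤ δ (j + 1)) (k : ℕ) :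
    0 ≤ cs δ k := by
  have key : ∀ k, A (MP_ecafe5_an.dl^[k] δ) ∧ (∀ j, 0 ≤ (MP_ecafe5_an.dl^[k] δ) j) ∧
      ∀ j, 0 ≤ MP_ecafe5_an.dl (MP_ecafe5_an.dl^[k] δ) j := by
    intro k
    induction k with
    | zero => exact ⟨h, h0, fun j => sub_nonneg.2 (h1 j)⟩
    | succ k ih =>
      rw [Function.iterate_succ_apply']
      refine ⟨ih.1.dl, ih.2.2, fun b => ?_⟩
      have := (ih.1.sft b).mono0 (fun j => ih.2.1 _) fun j => by
        have := ih.2.2 (j + b)
        simpa only [MP_ecafe5_an.dl, MP_ecafe5_an.sft, add_right_comm j 1 b] using this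
      simp only [MP_ecafe5_an.dl, MP_ecafe5_an.sft, zero_add, add_comm 1 b,
        show 1 + 1 + b = b + 1 + 1 by omega] at this ⊢
      linarith
  exact (key k).2.1 0

end Pool.Agent.H.MP_ecafe5_an
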