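import Mathlib

set_option autoImplicit false
open Polynomial Filter Topology

namespace Pool.Agent.H.MP_ecafe5_an

/-- No zero in the open upper half plane, or the zero polynomial. -/
def St (q : ℂ[X]) : Prop := q = 0 ∨ ∀ z : ℂ, 0 < z.im → q.eval z ≠ 0

/-- Only real zeros, or the zero polynomial. -/
def RZ (p : ℝ[X]) : Prop := p = 0 ∨ ∀ z : ℂ, aeval z p = 0 → z.im = 0

lemma root_im {q : ℂ[X]} (h : ∀ z : ℂ, 0 < z.im → q.eval z ≠ 0) {r : ℂ} (hr : r ∈ q.roots) :
    r.im ≤ 0 := by
  by_contra hc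
  exact h r (not_le.1 hc) (isRoot_of_mem_roots hr)

lemma im_sum (s : Multiset ℂ) {z : ℂ} (hz : 0 < z.im) (hs : ∀ r ∈ s, r.im ≤ 0) :
    (s.map fun r => 1 / (z - r)).sum.im ≤ 0 ∧
      (s ≠ 0 → (s.map fun r => 1 / (z - r)).sum.im < 0) := by
  induction s using Multiset.induction_on with
  | empty => simp
  | cons a s ih =>
    have h1 := (ih fun r hr => hs r (Multiset.mem_cons_of_mem hr)).1
    have ha := hs a (Multiset.mem_cons_self a s)
    have h2 : (1 / (z - a)).im < 0 := by
      have hne : z - a ≠ 0 := by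
        intro h
        have := congrArg Complex.im h
        simp at this
        linarith
      rw [one_div, Complex.inv_im]
      have h3 := Complex.normSq_pos.2 hne
      have h4 : 0 < (z - a).im := by simp; linarith
      exact div_neg_of_neg_of_pos (by linarith) h3
    simp only [Multiset.map_cons, Multiset.sum_cons, Complex.add_im]
    exact ⟨by linarith, fun _ => by linarith⟩

lemma logder {q : ℂ[X]} (h : ∀ z : ℂ, 0 < z.im → q.eval z ≠ 0) {z : ℂ} (hz : 0 < z.im) :
    (q.derivative.eval z / q.eval z).im ≤ 0 ∧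
      (q.derivative ≠ 0 → (q.derivative.eval z / q.eval z).im < 0) := by
  rw [(IsAlgClosed.splits q).eval_derivative_div_eval_of_ne_zero (h z hz)]
  have := im_sum q.roots hz fun r hr => root_im h hr
  refine ⟨this.1, fun hd => this.2 ((IsAlgClosed.splits q).roots_ne_zero ?_)⟩
  intro h0
  exact hd (derivative_of_natDegree_zero h0)

lemma St.deriv {q : ℂ[X]} (h : St q) : St (derivative q) := by
  rcases h with rfl | h
  · left; simp
  by_cases hd : derivative q = 0
  · exact Or.inl hd
  refine Or.inr fun z hz h0 => ?_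
  have := (logder h hz).2 hd
  rw [h0] at this
  simp at this

lemma rz_iff (p : ℝ[X]) : RZ p ↔ St (p.map (algebraMap ℝ ℂ)) := by
  have e : ∀ z : ℂ, (p.map (algebraMap ℝ ℂ)).eval z = aeval z p := fun z => by
    rw [eval_map_algebraMap]
  constructor
  · rintro (rfl | h)
    · left; simp
    · refine Or.inr fun z hz h0 => ?_
      rw [e] at h0
      exact hz.ne' (h z h0)
  · rintro (h | h)
    · exact Or.inl ((Polynomial.map_eq_zero_iff (algebraMap ℝ ℂ).injective).1 h)
    · refine Or.inr fun z h0 => ?_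
      rcases lt_trichotomy z.im 0 with h1 | h1 | h1
      · exfalso
        refine h (starRingEnd ℂ z) (by simpa using h1) ?_
        rw [e, aeval_conj, h0, map_zero]
      · exact h1
      · exact absurd (by rw [e, h0]) (h z h1)

lemma RZ.deriv {p : ℝ[X]} (h : RZ p) : RZ (derivative p) := by
  rw [rz_iff, ← derivative_map]
  exact ((rz_iff p).1 h).deriv

lemma RZ.iter {p : ℝ[X]} (h : RZ p) (k : ℕ) : RZ (derivative^[k] p) := by
  induction k with
  | zero => exact h
  | succ k ih => rw [Function.iterate_succ_apply']; exact ih.deriv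

lemma RZ.smul {p : ℝ[X]} (h : RZ p) (c : ℝ) : RZ (c • p) := by
  by_cases hc : c = 0
  · left; simp [hc]
  rcases h with rfl | h
  · left; simp
  refine Or.inr fun z hz => h z ?_
  rw [map_smul] at hz
  exact (smul_eq_zero.1 hz).resolve_left hc

lemma RZ.of_smul {p : ℝ[X]} {c : ℝ} (hc : c ≠ 0) (h : RZ (c • p)) : RZ p := by
  have := h.smul c⁻¹
  rwa [smul_smul, inv_mul_cancel₀ hc, one_smul] at this

lemma RZ.neg_X {p : ℝ[X]} (h : RZ p) : RZ (p.comp (-X)) := by
  rcases h with rfl | h
  · left; simp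
  refine Or.inr fun z hz => ?_
  have := h (-z) (by simpa [aeval_comp] using hz)
  simpa using this

lemma prod_ratio (s : Multiset ℂ) {z : ℂ} (hz : 0 < z.im) (w : ℂ) (hs : ∀ r ∈ s, r.im ≤ 0) :
    ‖(s.map (w - ·)).prod‖ ≤ (1 + ‖w - z‖ / z.im) ^ s.card * ‖(s.map (z - ·)).prod‖ := by
  induction s using Multiset.induction_on with
  | empty => simp
  | cons a s ih =>
    have h1 := ih fun r hr => hs r (Multiset.mem_cons_of_mem hr)
    have ha := hs a (Multiset.mem_cons_self a s)
    simp only [Multiset.map_cons, Multiset.prod_cons, norm_mul, Multiset.card_cons, pow_succ]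
    have h2 : z.im ≤ ‖z - a‖ := by
      have := Complex.im_le_norm (z - a)
      simp at this
      linarith
    have h3 : ‖w - a‖ ≤ (1 + ‖w - z‖ / z.im) * ‖z - a‖ := by
      have h4 : ‖w - a‖ ≤ ‖w - z‖ + ‖z - a‖ := norm_sub_le_norm_sub_add_norm_sub w z a
      have h5 : ‖w - z‖ / z.im * z.im ≤ ‖w - z‖ / z.im * ‖z - a‖ :=
        mul_le_mul_of_nonneg_left h2 (by positivity)
      rw [div_mul_cancel₀ _ hz.ne'] at h5
      linarith
    calc _ ≤ ((1 + ‖w - z‖ / z.im) * ‖z - a‖) *
          ((1 + ‖w - z‖ / z.im) ^ s.card * ‖(s.map (z - ·)).prod‖) :=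
          mul_le_mul h3 h1 (norm_nonneg _) (by positivity)
      _ = _ := by ring

lemma St.ratio {q : ℂ[X]} (h : St q) {B : ℕ} (hB : q.natDegree ≤ B) {z : ℂ} (hz : 0 < z.im)
    (w : ℂ) : ‖q.eval w‖ ≤ (1 + ‖w - z‖ / z.im) ^ B * ‖q.eval z‖ := by
  rcases h with rfl | h
  · simp
  rw [(IsAlgClosed.splits q).eval_eq_prod_roots, (IsAlgClosed.splits q).eval_eq_prod_roots z,
    norm_mul, norm_mul]
  have h1 := prod_ratio q.roots hz w fun r hr => root_im h hr
  have h2 : (1 + ‖w - z‖ / z.im) ^ q.roots.card ≤ (1 + ‖w - z‖ / z.im) ^ B :=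
    pow_le_pow_right₀ (by have : 0 ≤ ‖w - z‖ / z.im := by positivity
                          linarith) ((card_roots' q).trans hB)
  calc _ ≤ ‖q.leadingCoeff‖ * ((1 + ‖w - z‖ / z.im) ^ B * ‖(q.roots.map (z - ·)).prod‖) :=
        mul_le_mul_of_nonneg_left
          (h1.trans (mul_le_mul_of_nonneg_right h2 (norm_nonneg _))) (norm_nonneg _)
    _ = _ := by ring

lemma St.lim {f : ℕ → ℂ[X]} {q : ℂ[X]} {B : ℕ} (h : ∀ d, St (f d))
    (hB : ∀ d, (f d).natDegree ≤ B)
    (ht : ∀ z, Tendsto (fun d => (f d).eval z) atTop (𝓝 (q.eval z))) : St q := by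
  by_cases hq : ∀ z : ℂ, 0 < z.im → q.eval z ≠ 0
  · exact Or.inr hq
  push Not at hq
  obtain ⟨z, hz, h0⟩ := hq
  left
  refine Polynomial.funext fun w => ?_
  have h1 := le_of_tendsto_of_tendsto' (ht w).norm
    ((ht z).norm.const_mul ((1 + ‖w - z‖ / z.im) ^ B)) fun d => (h d).ratio (hB d) hz w
  rw [h0] at h1
  simpa using h1

lemma RZ.splits {p : ℝ[X]} (h : RZ p) : p.Splits := by
  rcases h with rfl | h
  · simp
  refine Splits.of_splits_map (algebraMap ℝ ℂ) (IsAlgClosed.splits _) fun a ha => ?_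
  have h1 : aeval a p = 0 := by
    have := isRoot_of_mem_roots ha
    rwa [IsRoot, eval_map_algebraMap] at this
  exact ⟨a.re, Complex.ext (by simp) (by simp [h a h1])⟩

/-- The normalised product attached to a multiset of roots. -/
noncomputable def np (s : Multiset ℝ) : ℝ[X] := (s.map fun r => 1 - C r⁻¹ * X).prod

lemma np_cons (a : ℝ) (s : Multiset ℝ) : np (a ::ₘ s) = (1 - C a⁻¹ * X) * np s := by
  simp [np]

lemma prod_np (s : Multiset ℝ) (hs : ∀ r ∈ s, r ≠ 0) :
    (s.map (X - C ·)).prod = C (s.map (0 - ·)).prod * np s := by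
  induction s using Multiset.induction_on with
  | empty => simp [np]
  | cons a s ih =>
    have ha := hs a (Multiset.mem_cons_self a s)
    rw [np_cons, Multiset.map_cons, Multiset.map_cons, Multiset.prod_cons, Multiset.prod_cons,
      ih fun r hr => hs r (Multiset.mem_cons_of_mem hr), C_mul]
    have : (C a : ℝ[X]) * C a⁻¹ = 1 := by rw [← C_mul, mul_inv_cancel₀ ha, C_1]
    simp only [zero_sub, map_neg]
    linear_combination (-(C (s.map Neg.neg).prod * np s * X)) * this

lemma RZ.fact {p : ℝ[X]} (h : RZ p) (h0 : p.eval 0 ≠ 0) : p = C (p.eval 0) * np p.roots := by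
  have hs : ∀ r ∈ p.roots, r ≠ 0 := fun r hr h1 => h0 (by
    have := isRoot_of_mem_roots hr
    rwa [h1] at this)
  conv_lhs => rw [h.splits.eq_prod_roots, prod_np _ hs]
  rw [h.splits.eval_eq_prod_roots 0, C_mul, mul_assoc]

lemma np_coeff (s : Multiset ℝ) : (np s).coeff 0 = 1 ∧
    (np s).coeff 1 ^ 2 - 2 * (np s).coeff 2 = (s.map fun r => r⁻¹ ^ 2).sum := by
  induction s using Multiset.induction_on with
  | empty => simp [np, coeff_one]
  | cons a s ih =>
    have e : ∀ n, (np (a ::ₘ s)).coeff (n + 1) = (np s).coeff (n + 1) - a⁻¹ * (np s).coeff n := by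
      intro n
      rw [np_cons, sub_mul, one_mul, coeff_sub, mul_assoc, coeff_C_mul, coeff_X_mul]
    refine ⟨by rw [np_cons]; simp [ih.1], ?_⟩
    rw [e 0, e 1, Multiset.map_cons, Multiset.sum_cons, ← ih.2, ih.1]
    ring

lemma np_near (s : Multiset ℝ) {τ : ℝ} (hτ : 0 ≤ τ) (hs : ∀ r ∈ s, |r⁻¹| ≤ τ) (x : ℝ) :
    |(np s).eval x - 1| ≤ (1 + |x| * τ) ^ s.card - 1 := by
  induction s using Multiset.induction_on with
  | empty => simp [np]
  | cons a s ih =>
    have h1 := ih fun r hr => hs r (Multiset.mem_cons_of_mem hr)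
    have ha := hs a (Multiset.mem_cons_self a s)
    rw [np_cons, Multiset.card_cons, pow_succ]
    simp only [eval_mul, eval_sub, eval_one, eval_C, eval_X]
    set P := (np s).eval x
    set A := (1 + |x| * τ) ^ s.card
    have h2 : |a⁻¹ * x| ≤ |x| * τ := by
      rw [abs_mul, mul_comm]; exact mul_le_mul_of_nonneg_left ha (abs_nonneg _)
    have h3 : |P| ≤ A := by
      have := abs_add_le (P - 1) 1
      simp only [sub_add_cancel, abs_one] at this
      linarith
    have h4 : |a⁻¹ * x * P| ≤ |x| * τ * A := by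
      rw [abs_mul]; exact mul_le_mul h2 h3 (abs_nonneg _) (by positivity)
    have h5 := abs_sub (P - 1) (a⁻¹ * x * P)
    have e : (1 - a⁻¹ * x) * P - 1 = P - 1 - a⁻¹ * x * P := by ring
    rw [e]
    linarith

lemma RZ.sq_sum {p : ℝ[X]} (h : RZ p) (h0 : p.coeff 0 ≠ 0) :
    p.coeff 1 ^ 2 - 2 * p.coeff 0 * p.coeff 2 =
      p.coeff 0 ^ 2 * (p.roots.map fun r => r⁻¹ ^ 2).sum := by
  have h1 := h.fact (by rwa [← coeff_zero_eq_eval_zero])
  rw [← coeff_zero_eq_eval_zero] at h1
  have e : ∀ n, p.coeff n = p.coeff 0 * (np p.roots).coeff n := fun n => by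
    conv_lhs => rw [h1, coeff_C_mul]
  rw [e 1, e 2, ← (np_coeff _).2]
  ring

/-- Key lemma: small Laguerre expression at the origin forces closeness to a constant. -/
lemma RZ.kl {p : ℝ[X]} (h : RZ p) (h0 : p.coeff 0 ≠ 0) {n : ℕ} (hn : p.natDegree ≤ n) {τ : ℝ}
    (hτ : 0 ≤ τ) (hb : p.coeff 1 ^ 2 - 2 * p.coeff 0 * p.coeff 2 ≤ p.coeff 0 ^ 2 * τ ^ 2)
    (x : ℝ) : |p.eval x - p.coeff 0| ≤ ((1 + |x| * τ) ^ n - 1) * |p.coeff 0| := by
  rw [h.sq_sum h0] at hb
  have hb' := le_of_mul_le_mul_left hb (by positivity)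
  have hs : ∀ r ∈ p.roots, |r⁻¹| ≤ τ := fun r hr => by
    refine abs_le_of_sq_le_sq' ?_ hτ |> abs_le.2
    refine le_trans ?_ hb'
    exact Multiset.single_le_sum (fun y hy => by
      obtain ⟨u, -, rfl⟩ := Multiset.mem_map.1 hy
      positivity) _ (Multiset.mem_map_of_mem _ hr)
  have h1 := h.fact (by rwa [← coeff_zero_eq_eval_zero])
  rw [← coeff_zero_eq_eval_zero] at h1
  have h2 := np_near p.roots hτ hs x
  have h3 : (1 + |x| * τ) ^ p.roots.card ≤ (1 + |x| * τ) ^ n :=
    pow_le_pow_right₀ (by have : 0 ≤ |x| * τ := by positivity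
                          linarith) ((card_roots' p).trans hn)
  have e : p.eval x - p.coeff 0 = ((np p.roots).eval x - 1) * p.coeff 0 := by
    conv_lhs => rw [h1]
    simp only [eval_mul, eval_C, mul_coeff_zero, coeff_C_zero, (np_coeff _).1]
    ring
  rw [e, abs_mul]
  exact mul_le_mul_of_nonneg_right (by linarith) (abs_nonneg _)

lemma RZ.lag0 {p : ℝ[X]} (h : RZ p) (h1 : p.coeff 1 = 0) : p.coeff 0 * p.coeff 2 ≤ 0 := by
  by_cases h0 : p.coeff 0 = 0
  · simp [h0]
  have h2 := h.sq_sum h0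
  have h3 : 0 ≤ (p.roots.map fun r => r⁻¹ ^ 2).sum := Multiset.sum_nonneg fun y hy => by
    obtain ⟨u, -, rfl⟩ := Multiset.mem_map.1 hy
    positivity
  rw [h1] at h2
  nlinarith [mul_nonneg (sq_nonneg (p.coeff 0)) h3]

lemma RZ.gap0 {p : ℝ[X]} (h : RZ p) (h0 : p.coeff 0 ≠ 0) (h1 : p.coeff 1 = 0)
    (h2 : p.coeff 2 = 0) (l : ℕ) : p.coeff (l + 1) = 0 := by
  have e : p = C (p.coeff 0) := Polynomial.funext fun x => by
    have := h.kl h0 le_rfl le_rfl (by simp [h1, h2]) x
    simp only [mul_zero, add_zero, one_pow, sub_self, zero_mul, abs_nonpos_iff] at this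
    rw [eval_C]; linarith
  rw [e, coeff_C_succ]

lemma df_pos (i j : ℕ) : (0 : ℝ) < ((i + j).descFactorial j : ℕ) := by
  exact_mod_cast Nat.descFactorial_pos.2 (by omega)

lemma RZ.lag {p : ℝ[X]} (h : RZ p) (j : ℕ) (h1 : p.coeff (j + 1) = 0) :
    p.coeff j * p.coeff (j + 2) ≤ 0 := by
  have := (h.iter j).lag0 (by rw [coeff_iterate_derivative, add_comm 1 j, h1, smul_zero])
  rw [coeff_iterate_derivative, coeff_iterate_derivative, nsmul_eq_mul, nsmul_eq_mul] at this
  have h2 := df_pos 0 j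
  have h3 := df_pos 2 j
  rw [zero_add] at this h2
  rw [add_comm 2 j] at this h3
  by_contra hc
  have := mul_pos (mul_pos h2 h3) (not_le.1 hc)
  nlinarith

lemma RZ.gap {p : ℝ[X]} (h : RZ p) (j : ℕ) (h0 : p.coeff j ≠ 0) (h1 : p.coeff (j + 1) = 0)
    (h2 : p.coeff (j + 2) = 0) (l : ℕ) : p.coeff (j + (l + 1)) = 0 := by
  have := (h.iter j).gap0
    (by rw [coeff_iterate_derivative, nsmul_eq_mul]
        exact mul_ne_zero (df_pos 0 j).ne' (by rwa [zero_add]))
    (by rw [coeff_iterate_derivative, add_comm 1 j, h1, smul_zero])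
    (by rw [coeff_iterate_derivative, add_comm 2 j, h2, smul_zero]) l
  rw [coeff_iterate_derivative, nsmul_eq_mul] at this
  rw [add_comm]
  exact (mul_eq_zero.1 this).resolve_left (df_pos _ _).ne'

/-- A sequence with products of neighbours nonnegative and no internal zero has a sign. -/
lemma sign_chain (e : ℕ → ℝ) (h1 : ∀ i, 0 ≤ e i * e (i + 1))
    (h2 : ∀ i, e i ≠ 0 → e (i + 1) = 0 → ∀ l, e (i + (l + 1)) = 0) :
    ∃ ε : ℝ, ε ^ 2 = 1 ∧ ∀ i, 0 ≤ ε * e i := by
  classical
  by_cases h : ∃ i, e i ≠ 0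
  swap
  · push Not at h
    exact ⟨1, by simp, fun i => by simp [h i]⟩
  obtain ⟨ε, hε, h0⟩ : ∃ ε : ℝ, ε ^ 2 = 1 ∧ 0 < ε * e (Nat.find h) := by
    rcases lt_or_gt_of_ne (Nat.find_spec h) with h3 | h3
    · exact ⟨-1, by simp, by linarith⟩
    · exact ⟨1, by simp, by linarith⟩
  have key : ∀ k, 0 < ε * e (Nat.find h + k) ∨ ∀ l, e (Nat.find h + k + l) = 0 := by
    intro k
    induction k with
    | zero => exact Or.inl h0
    | succ k ih =>
      rcases ih with h3 | h3
      · have h4 : e (Nat.find h + k) ≠ 0 := fun h5 => by simp [h5] at h3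
        by_cases h5 : e (Nat.find h + k + 1) = 0
        · right
          intro l
          refine Eq.trans ?_ (h2 _ h4 h5 l)
          congr 1
          omega
        · left
          have h6 := h1 (Nat.find h + k)
          have h7 : ε * e (Nat.find h + k + 1) ≠ 0 :=
            mul_ne_zero (fun h8 => by simp [h8] at hε) h5
          rcases lt_or_gt_of_ne h7 with h8 | h8
          · have h9 := mul_neg_of_pos_of_neg h3 h8
            have : ε * e (Nat.find h + k) * (ε * e (Nat.find h + k + 1)) =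
                ε ^ 2 * (e (Nat.find h + k) * e (Nat.find h + k + 1)) := by ring
            rw [this, hε] at h9
            linarith
          · exact h8
      · right
        intro l
        refine Eq.trans ?_ (h3 (l + 1))
        congr 1
        omega
  refine ⟨ε, hε, fun i => ?_⟩
  rcases lt_or_ge i (Nat.find h) with h3 | h3
  · have := Nat.find_min h h3
    push Not at this
    simp [this]
  · obtain ⟨k, rfl⟩ := Nat.exists_eq_add_of_le h3
    rcases key k with h4 | h4
    · exact h4.le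
    · have := h4 0
      rw [add_zero] at this
      simp [this]

/-- Number of roots to the right of `a`. -/
noncomputable def cnt (a : ℝ) (p : ℝ[X]) : ℕ := (p.roots.filter (a < ·)).card

lemma cnt_deriv (a : ℝ) (p : ℝ[X]) : cnt a p ≤ cnt a (derivative p) + 1 := by
  classical
  rcases eq_or_ne (derivative p) 0 with hp' | hp'
  · rw [eq_C_of_derivative_eq_zero hp']
    simp [cnt]
  have hp : p ≠ 0 := ne_of_apply_ne derivative (by rwa [derivative_zero])
  unfold cnt
  set s := p.roots.filter (a < ·) with hs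
  set t := (derivative p).roots.filter (a < ·) with ht
  have h1 : s.toFinset.card ≤ (t.toFinset \ s.toFinset).card + 1 := by
    refine Finset.card_le_sdiff_of_interleaved fun x hx y hy hxy hxy' => ?_
    rw [Multiset.mem_toFinset, hs, Multiset.mem_filter, mem_roots hp] at hx hy
    obtain ⟨z, hz1, hz2⟩ := exists_deriv_eq_zero hxy p.continuousOn (hx.1.trans hy.1.symm)
    refine ⟨z, ?_, hz1⟩
    rw [Multiset.mem_toFinset, ht, Multiset.mem_filter, mem_roots hp', IsRoot, ← p.deriv]
    exact ⟨hz2, hx.2.trans hz1.1⟩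
  have h2 : ∀ x ∈ s.toFinset, s.count x ≤ t.count x + 1 := fun x hx => by
    rw [Multiset.mem_toFinset, hs, Multiset.mem_filter] at hx
    rw [hs, ht, Multiset.count_filter_of_pos hx.2, Multiset.count_filter_of_pos hx.2,
      count_roots, count_roots]
    have := rootMultiplicity_sub_one_le_derivative_rootMultiplicity p x
    omega
  have h3 : (t.toFinset \ s.toFinset).card ≤ ∑ x ∈ t.toFinset \ s.toFinset, t.count x := by
    rw [Finset.card_eq_sum_ones]
    refine Finset.sum_le_sum fun x hx => ?_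
    rw [Nat.succ_le_iff, Multiset.count_pos, ← Multiset.mem_toFinset]
    exact (Finset.mem_sdiff.1 hx).1
  have h4 : ∑ x ∈ s.toFinset, t.count x + ∑ x ∈ t.toFinset \ s.toFinset, t.count x = t.card := by
    rw [← Finset.sum_union Finset.disjoint_sdiff, Finset.union_sdiff_self_eq_union,
      ← Multiset.toFinset_sum_count_eq, ← Finset.sum_subset Finset.subset_union_right]
    intro x _ hx₂
    simpa only [Multiset.mem_toFinset, Multiset.count_eq_zero] using hx₂
  have h5 := Finset.sum_le_sum h2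
  rw [Finset.sum_add_distrib, ← Finset.card_eq_sum_ones, Multiset.toFinset_sum_count_eq] at h5
  omega

lemma cnt_iter (a : ℝ) (p : ℝ[X]) (n : ℕ) : cnt a p ≤ cnt a (derivative^[n] p) + n := by
  induction n with
  | zero => simp
  | succ n ih =>
    rw [Function.iterate_succ_apply']
    have := cnt_deriv a (derivative^[n] p)
    omega

lemma prod_lb (s : Multiset ℝ) (f u : ℝ → ℝ) (a : ℝ) {c : ℝ} (hc : 0 ≤ c)
    (hu : ∀ r ∈ s, 0 ≤ u r) (h1 : ∀ r ∈ s, a < r → c * u r ≤ f r)
    (h2 : ∀ r ∈ s, ¬ a < r → u r ≤ f r) :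
    c ^ (s.filter (a < ·)).card * (s.map u).prod ≤ (s.map f).prod := by
  induction s using Multiset.induction_on with
  | empty => simp
  | cons b s ih =>
    have h3 := ih (fun r hr => hu r (Multiset.mem_cons_of_mem hr))
      (fun r hr => h1 r (Multiset.mem_cons_of_mem hr))
      (fun r hr => h2 r (Multiset.mem_cons_of_mem hr))
    have hb := Multiset.mem_cons_self b s
    have h4 : 0 ≤ c ^ (s.filter (a < ·)).card * (s.map u).prod :=
      mul_nonneg (pow_nonneg hc _) (Multiset.prod_nonneg fun y hy => by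
        obtain ⟨v, hv, rfl⟩ := Multiset.mem_map.1 hy
        exact hu v (Multiset.mem_cons_of_mem hv))
    simp only [Multiset.map_cons, Multiset.prod_cons]
    by_cases hab : a < b
    · rw [Multiset.filter_cons_of_pos _ hab, Multiset.card_cons, pow_succ]
      have h5 := h1 b hb hab
      have := mul_le_mul h5 h3 h4 (le_trans (mul_nonneg hc (hu b hb)) h5)
      linarith
    · rw [Multiset.filter_cons_of_neg _ hab]
      have h5 := h2 b hb hab
      have := mul_le_mul h5 h3 h4 (le_trans (hu b hb) h5)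
      linarith

end Pool.Agent.H.MP_ecafe5_an
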